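import Pool.Agent.H357.GC.Irr

set_option autoImplicit false

/-! The curve of the double twist knot (helper357). -/

open Polynomial

namespace Pool.Agent.H357.GC

/-- the coefficient of `E ^ 2` -/
noncomputable def mid : ℂ[X] :=
  (X ^ 2 - X + 2) ^ 2 * (X ^ 4 - X ^ 3) + (2 * X ^ 2 - X + 1) ^ 2 * (1 - X) + 2 * X ^ 3 * (1 - X) ^ 2

/-- the polynomial of the curve, in `ℂ[Q][E]` -/
noncomputable def chi : ℂ[X][X] :=
  C (X ^ 4) * X ^ 4 - C (X ^ 2 * (X ^ 2 - X + 2) * (2 * X ^ 2 - X + 1)) * X ^ 3 + C mid * X ^ 2 +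
    C (X * (X ^ 2 - X + 2) * (2 * X ^ 2 - X + 1) * (1 - X) ^ 2) * X + C (X ^ 2 * (1 - X) ^ 4)

/-- the value of a polynomial in `ℂ[Q][E]` at `E = x`, `Q = y` -/
noncomputable def val (F : ℂ[X][X]) (x y : RatFunc ℂ) : RatFunc ℂ :=
  F.eval₂ ((aeval y : ℂ[X] →ₐ[ℂ] RatFunc ℂ) : ℂ[X] →+* RatFunc ℂ) x

/-- the first trace -/
noncomputable def t1 {K : Type*} [Field K] (y : K) : K := y ^ 2 - y + 2
/-- the second trace -/
noncomputable def t2 {K : Type*} [Field K] (y : K) : K := (2 * y ^ 2 - y + 1) / y ^ 2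
/-- the first determinant -/
noncomputable def e1 {K : Type*} [Field K] (y : K) : K := 1 - y
/-- the second determinant -/
noncomputable def e2 {K : Type*} [Field K] (y : K) : K := (y - 1) / y

theorem val_chi (x y : RatFunc ℂ) : val chi x y = y ^ 4 * x ^ 4 -
    y ^ 2 * (y ^ 2 - y + 2) * (2 * y ^ 2 - y + 1) * x ^ 3 +
    ((y ^ 2 - y + 2) ^ 2 * (y ^ 4 - y ^ 3) + (2 * y ^ 2 - y + 1) ^ 2 * (1 - y) + 2 * y ^ 3 * (1 - y) ^ 2) * x ^ 2 +
    y * (y ^ 2 - y + 2) * (2 * y ^ 2 - y + 1) * (1 - y) ^ 2 * x + y ^ 2 * (1 - y) ^ 4 := by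
  unfold val chi mid
  simp only [eval₂_add, eval₂_sub, eval₂_mul, eval₂_C, eval₂_pow, eval₂_X, RingHom.coe_coe, map_add, map_sub,
    map_mul, map_pow, aeval_X, map_one, map_ofNat, eval₂_ofNat, eval₂_one]

section
variable {y : RatFunc ℂ} (hy : ∀ c : ℂ, y ≠ algebraMap ℂ (RatFunc ℂ) c)
include hy

theorem ne_of (p : ℂ[X]) (a : ℂ) (h : p.eval a ≠ 0) : aeval y p ≠ 0 := by
  intro h0
  have hp : p ≠ 0 := by
    intro h1
    rw [h1, eval_zero] at h
    exact h rfl
  obtain ⟨c, hc⟩ := alg_const y p hp h0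
  exact hy c hc

theorem y0 : y ≠ 0 := by
  have := hy 0
  rwa [map_zero] at this

theorem y1 : 1 - y ≠ 0 := by
  have := hy 1
  rw [map_one] at this
  exact sub_ne_zero.2 (Ne.symm this)

theorem y2 : y ^ 2 - y + 2 ≠ 0 := by
  have := ne_of hy (X ^ 2 - X + 2) 0 (by simp)
  simpa [map_ofNat] using this

theorem y3 : 2 * y ^ 2 - y + 1 ≠ 0 := by
  have := ne_of hy (2 * X ^ 2 - X + 1) 0 (by simp)
  simpa [map_ofNat] using this

theorem y4 : (2 * y ^ 2 - y + 1) ^ 2 + y ^ 3 * (y ^ 2 - y + 2) ^ 2 ≠ 0 := by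
  have := ne_of hy ((2 * X ^ 2 - X + 1) ^ 2 + X ^ 3 * (X ^ 2 - X + 2) ^ 2) 0 (by simp)
  simpa [map_ofNat] using this

theorem hDel : t2 y ^ 2 * e1 y - t1 y ^ 2 * e2 y ≠ 0 := by
  have h0 := y0 hy
  have h1 := y1 hy
  have h4 := y4 hy
  have e : t2 y ^ 2 * e1 y - t1 y ^ 2 * e2 y =
      (1 - y) * ((2 * y ^ 2 - y + 1) ^ 2 + y ^ 3 * (y ^ 2 - y + 2) ^ 2) / y ^ 4 := by
    unfold t1 t2 e1 e2
    field_simp
    ring
  rw [e]
  exact div_ne_zero (mul_ne_zero h1 h4) (pow_ne_zero 4 h0)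

theorem he2 : e2 y ≠ 0 := by
  have h0 := y0 hy
  have h1 := y1 hy
  unfold e2
  refine div_ne_zero ?_ h0
  intro h
  exact h1 (by linear_combination -h)

theorem disc1 : t1 y ^ 2 - 4 * e1 y = y ^ 2 * (y ^ 2 - 2 * y + 5) := by
  unfold t1 e1
  ring

theorem disc2 : t2 y ^ 2 - 4 * e2 y = (5 * y ^ 2 - 2 * y + 1) / y ^ 4 := by
  have h0 := y0 hy
  unfold t2 e2
  field_simp
  ring

theorem sq1 {s : RatFunc ℂ} (hs : s ^ 2 = t1 y ^ 2 - 4 * e1 y) : (s / y) ^ 2 = y ^ 2 - 2 * y + 5 := by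
  have h0 := y0 hy
  rw [disc1 hy] at hs
  rw [div_pow, hs]
  field_simp

theorem sq2 {s : RatFunc ℂ} (hs : s ^ 2 = t2 y ^ 2 - 4 * e2 y) : (s * y ^ 2) ^ 2 = 5 * y ^ 2 - 2 * y + 1 := by
  have h0 := y0 hy
  rw [disc2 hy] at hs
  rw [mul_pow, hs]
  field_simp

theorem sq3 {s : RatFunc ℂ} (hs : s ^ 2 = (t1 y ^ 2 - 4 * e1 y) * (t2 y ^ 2 - 4 * e2 y)) :
    (s * y) ^ 2 = (y ^ 2 - 2 * y + 5) * (5 * y ^ 2 - 2 * y + 1) := by
  have h0 := y0 hy
  rw [disc1 hy, disc2 hy] at hs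
  rw [mul_pow, hs]
  field_simp

theorem val_quar (x : RatFunc ℂ) : val chi x y = y ^ 4 * (x ^ 4 - t1 y * t2 y * x ^ 3 +
    (t1 y ^ 2 * e2 y + t2 y ^ 2 * e1 y - 2 * e1 y * e2 y) * x ^ 2 - t1 y * t2 y * (e1 y * e2 y) * x +
      (e1 y * e2 y) ^ 2) := by
  have h0 := y0 hy
  rw [val_chi]
  unfold t1 t2 e1 e2
  field_simp
  ring

/-- there is no parametrization with `Q = y` not constant -/
theorem no_root (x : RatFunc ℂ) : val chi x y ≠ 0 := by
  intro h
  have h0 := y0 hy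
  rw [val_quar hy] at h
  have h1 := (mul_eq_zero.1 h).resolve_left (pow_ne_zero 4 h0)
  have hx : x ≠ 0 := by
    intro hx
    rw [hx] at h1
    have h2 : (e1 y * e2 y) ^ 2 = 0 := by linear_combination h1
    exact (pow_ne_zero 2 (mul_ne_zero (y1 hy) (he2 hy))) h2
  obtain ⟨s, hs⟩ := root_sq (t1 y) (t2 y) (e1 y) (e2 y) x hx (hDel hy) h1
  obtain ⟨t, ht⟩ := root_sq (t2 y) (t1 y) (e2 y) (e1 y) x hx (by
    intro h3
    exact hDel hy (by linear_combination -h3)) (by linear_combination h1)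
  obtain ⟨c, hc⟩ := quad_const y _ _ (sq1 hy hs) (sq2 hy ht)
  exact hy c hc

end

theorem mid_coeff : mid.eval 0 = 1 := by
  unfold mid
  simp

theorem chi_coeff4 : chi.coeff 4 = X ^ 4 := by
  unfold chi
  simp only [coeff_add, coeff_sub, coeff_C_mul, coeff_X_pow, coeff_X, coeff_C]
  norm_num

theorem chi_coeff2 : chi.coeff 2 = mid := by
  unfold chi
  simp only [coeff_add, coeff_sub, coeff_C_mul, coeff_X_pow, coeff_X, coeff_C]
  norm_num

/-- **No nonconstant rational parametrization** -/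
theorem no_param (x y : RatFunc ℂ) (h : val chi x y = 0) :
    (∃ a : ℂ, x = algebraMap ℂ (RatFunc ℂ) a) ∧ (∃ b : ℂ, y = algebraMap ℂ (RatFunc ℂ) b) := by
  have hy : ∃ b : ℂ, y = algebraMap ℂ (RatFunc ℂ) b := by
    by_contra hne
    push Not at hne
    exact no_root hne x h
  refine ⟨?_, hy⟩
  obtain ⟨b, rfl⟩ := hy
  have h1 : aeval x (chi.map (evalRingHom b)) = 0 := by
    rw [← h]
    unfold val
    rw [aeval_def, eval₂_map]
    refine congrArg (fun f => eval₂ f x chi) ?_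
    refine RingHom.ext fun p => ?_
    simp only [RingHom.comp_apply, coe_evalRingHom, RingHom.coe_coe]
    rw [aeval_algebraMap_apply]
    rfl
  refine alg_const x _ ?_ h1
  intro h2
  by_cases hb : b = 0
  · have h3 := congrArg (fun p => coeff p 2) h2
    simp only [coeff_map, chi_coeff2, coe_evalRingHom, coeff_zero] at h3
    rw [hb, mid_coeff] at h3
    exact one_ne_zero h3
  · have h3 := congrArg (fun p => coeff p 4) h2
    simp only [coeff_map, chi_coeff4, coe_evalRingHom, coeff_zero, eval_pow, eval_X] at h3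
    exact hb (pow_eq_zero_iff (by norm_num) |>.1 h3)

/-! ### irreducibility -/

/-- the variable `Q` in the field of rational functions -/
noncomputable def qq : RatFunc ℂ := algebraMap ℂ[X] (RatFunc ℂ) X

theorem qq_nonconst (c : ℂ) : qq ≠ algebraMap ℂ (RatFunc ℂ) c := by
  intro h
  have h1 : algebraMap ℂ (RatFunc ℂ) c = algebraMap ℂ[X] (RatFunc ℂ) (C c) := by
    rw [IsScalarTower.algebraMap_apply ℂ ℂ[X] (RatFunc ℂ)]
    rfl
  rw [h1] at h
  exact X_ne_C c ((IsFractionRing.injective ℂ[X] (RatFunc ℂ)) h)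

/-- the eigenvalue polynomial over the field of rational functions -/
noncomputable def XE : (RatFunc ℂ)[X] := quar (t1 qq) (t2 qq) (e1 qq) (e2 qq)

theorem XE_irr : Irreducible XE := by
  have hq := qq_nonconst
  have hI : (Complex.I : ℂ) ^ 2 = -1 := Complex.I_sq
  have p1 : qq ^ 2 - 2 * qq + 5 = algebraMap ℂ[X] (RatFunc ℂ) (X ^ 2 - 2 * X + 5) := by
    unfold qq
    simp only [map_add, map_sub, map_mul, map_pow, map_one, map_ofNat]
  have p2 : 5 * qq ^ 2 - 2 * qq + 1 = algebraMap ℂ[X] (RatFunc ℂ) (5 * X ^ 2 - 2 * X + 1) := by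
    unfold qq
    simp only [map_add, map_sub, map_mul, map_pow, map_one, map_ofNat]
  refine quar_irr _ _ _ _ (y2 hq) (div_ne_zero (y3 hq) (pow_ne_zero 2 (y0 hq))) (y1 hq) (he2 hq) (hDel hq) ?_ ?_ ?_
  · intro s hs
    have h1 := sq1 hq hs
    rw [p1] at h1
    refine nonsq (a := 1 + 2 * Complex.I) ?_ ?_ _ h1
    · simp only [eval_add, eval_sub, eval_mul, eval_pow, eval_X, eval_ofNat]
      linear_combination 4 * hI
    · simp only [derivative_add, derivative_sub, derivative_mul, derivative_X_pow, derivative_X, derivative_ofNat]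
      simp only [eval_add, eval_sub, eval_mul, eval_pow, eval_X, eval_ofNat, eval_zero, eval_one, eval_C]
      intro h2
      have h3 := congrArg Complex.im h2
      norm_num at h3
  · intro s hs
    have h1 := sq2 hq hs
    rw [p2] at h1
    refine nonsq (a := (1 + 2 * Complex.I) / 5) ?_ ?_ _ h1
    · simp only [eval_add, eval_sub, eval_mul, eval_pow, eval_X, eval_ofNat, eval_one]
      linear_combination (4 / 5) * hI
    · simp only [derivative_add, derivative_sub, derivative_mul, derivative_X_pow, derivative_X, derivative_ofNat, derivative_one]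
      simp only [eval_add, eval_sub, eval_mul, eval_pow, eval_X, eval_ofNat, eval_zero, eval_one, eval_C]
      intro h2
      have h3 := congrArg Complex.im h2
      norm_num at h3
  · intro s hs
    have h1 := sq3 hq hs
    rw [p1, p2, ← map_mul] at h1
    refine nonsq (a := 1 + 2 * Complex.I) ?_ ?_ _ h1
    · simp only [eval_add, eval_sub, eval_mul, eval_pow, eval_X, eval_ofNat, eval_one]
      linear_combination (4 * (5 * (1 + 2 * Complex.I) ^ 2 - 2 * (1 + 2 * Complex.I) + 1)) * hI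
    · simp only [derivative_add, derivative_sub, derivative_mul, derivative_X_pow, derivative_X, derivative_ofNat, derivative_one]
      simp only [eval_add, eval_sub, eval_mul, eval_pow, eval_X, eval_ofNat, eval_zero, eval_one, eval_C]
      intro h2
      have h3 := congrArg Complex.im h2
      norm_num [pow_succ] at h3

theorem chi_map : chi.map (algebraMap ℂ[X] (RatFunc ℂ)) = C (qq ^ 4) * XE := by
  have h0 := y0 qq_nonconst
  unfold chi XE quar mid
  simp only [Polynomial.map_add, Polynomial.map_sub, Polynomial.map_mul, Polynomial.map_pow, Polynomial.map_one, Polynomial.map_ofNat,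
    map_C, map_X, map_add, map_sub, map_mul, map_pow, map_one, map_ofNat]
  rw [show algebraMap ℂ[X] (RatFunc ℂ) X = qq from rfl]
  have e1' : C (qq ^ 4) * (C (t1 qq) * C (t2 qq)) = (C qq ^ 2 * (C qq ^ 2 - C qq + 2) * (2 * C qq ^ 2 - C qq + 1) : (RatFunc ℂ)[X]) := by
    have : qq ^ 4 * (t1 qq * t2 qq) = qq ^ 2 * (qq ^ 2 - qq + 2) * (2 * qq ^ 2 - qq + 1) := by
      unfold t1 t2
      field_simp
    have h := congrArg (fun z => (C z : (RatFunc ℂ)[X])) this
    simpa only [map_mul, map_add, map_sub, map_pow, map_one, map_ofNat] using h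
  have e2' : C (qq ^ 4) * (C (t1 qq) ^ 2 * C (e2 qq) + C (t2 qq) ^ 2 * C (e1 qq) - 2 * C (e1 qq) * C (e2 qq)) =
      ((C qq ^ 2 - C qq + 2) ^ 2 * (C qq ^ 4 - C qq ^ 3) + (2 * C qq ^ 2 - C qq + 1) ^ 2 * (1 - C qq) +
        2 * C qq ^ 3 * (1 - C qq) ^ 2 : (RatFunc ℂ)[X]) := by
    have : qq ^ 4 * (t1 qq ^ 2 * e2 qq + t2 qq ^ 2 * e1 qq - 2 * e1 qq * e2 qq) =
        (qq ^ 2 - qq + 2) ^ 2 * (qq ^ 4 - qq ^ 3) + (2 * qq ^ 2 - qq + 1) ^ 2 * (1 - qq) +
        2 * qq ^ 3 * (1 - qq) ^ 2 := by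
      unfold t1 t2 e1 e2
      field_simp
      ring
    have h := congrArg (fun z => (C z : (RatFunc ℂ)[X])) this
    simpa only [map_mul, map_add, map_sub, map_pow, map_one, map_ofNat] using h
  have e3' : C (qq ^ 4) * (C (t1 qq) * C (t2 qq) * (C (e1 qq) * C (e2 qq))) =
      -(C qq * (C qq ^ 2 - C qq + 2) * (2 * C qq ^ 2 - C qq + 1) * (1 - C qq) ^ 2 : (RatFunc ℂ)[X]) := by
    have : qq ^ 4 * (t1 qq * t2 qq * (e1 qq * e2 qq)) =
        -(qq * (qq ^ 2 - qq + 2) * (2 * qq ^ 2 - qq + 1) * (1 - qq) ^ 2) := by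
      unfold t1 t2 e1 e2
      field_simp
      ring
    have h := congrArg (fun z => (C z : (RatFunc ℂ)[X])) this
    simpa only [map_mul, map_add, map_sub, map_pow, map_one, map_ofNat, map_neg] using h
  have e4' : C (qq ^ 4) * (C (e1 qq) * C (e2 qq)) ^ 2 = (C qq ^ 2 * (1 - C qq) ^ 4 : (RatFunc ℂ)[X]) := by
    have : qq ^ 4 * (e1 qq * e2 qq) ^ 2 = qq ^ 2 * (1 - qq) ^ 4 := by
      unfold e1 e2
      field_simp
      ring
    have h := congrArg (fun z => (C z : (RatFunc ℂ)[X])) this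
    simpa only [map_mul, map_add, map_sub, map_pow, map_one, map_ofNat] using h
  have e5' : (C (qq ^ 4) : (RatFunc ℂ)[X]) = C qq ^ 4 := by rw [C_pow]
  rw [e5'] at e1' e2' e3' e4'
  linear_combination X ^ 3 * e1' - X ^ 2 * e2' + X * e3' - e4'

theorem chi_prim : chi.IsPrimitive := by
  intro r hr
  have h4 : r ∣ X ^ 4 := by
    rw [← chi_coeff4]
    exact (C_dvd_iff_dvd_coeff _ _).1 hr 4
  have h2 : r ∣ mid := by
    rw [← chi_coeff2]
    exact (C_dvd_iff_dvd_coeff _ _).1 hr 2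
  have hc : IsCoprime (X : ℂ[X]) mid := by
    refine ⟨-(-4 * X ^ 4 + 8 * X ^ 3 - 9 * X ^ 2 + 7 * X - 3 + X ^ 2 * (X - 1) * (X ^ 2 - X + 2) ^ 2 +
      2 * X ^ 2 * (1 - X) ^ 2), 1, ?_⟩
    unfold mid
    ring
  exact (hc.pow_left (m := 4)).isUnit_of_dvd' h4 h2

theorem chi_irr : Irreducible chi := by
  rw [chi_prim.irreducible_iff_irreducible_map_fraction_map (K := RatFunc ℂ), chi_map]
  have h0 := y0 qq_nonconst
  have hu : IsUnit (C (qq ^ 4) : (RatFunc ℂ)[X]) := isUnit_C.2 (isUnit_iff_ne_zero.2 (pow_ne_zero 4 h0))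
  exact (irreducible_isUnit_mul hu).2 XE_irr

end Pool.Agent.H357.GC
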