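import Mathlib

set_option autoImplicit false

/-! Definitions for MP_4fdcc5_gt (helper357). -/

open Polynomial

namespace Pool.Agent.H357.GC

/-- the Gaussian binomial coefficients, as polynomials in `q` -/
noncomputable def qb : ℕ → ℕ → ℤ[X]
  | _, 0 => 1
  | 0, _ + 1 => 0
  | n + 1, k + 1 => qb n k + X ^ (k + 1) * qb n (k + 1)

/-- `∑ q ^ (k (k + 1)) [n, k]` -/
noncomputable def aa (n : ℕ) : ℤ[X] := ∑ k ∈ Finset.range (n + 1), X ^ (k * (k + 1)) * qb n k

/-- `∑ q ^ (k (k + 2)) [n, k]` -/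
noncomputable def bb (n : ℕ) : ℤ[X] := ∑ k ∈ Finset.range (n + 1), X ^ (k * (k + 2)) * qb n k

/-- the coefficient `c (Q, q)`, a polynomial in `ℤ[q][Q]`, at `Q = q ^ n` -/
noncomputable def at' (n : ℕ) (c : ℤ[X][X]) : RatFunc ℚ := aeval (RatFunc.X : RatFunc ℚ) (c.eval (X ^ n))

/-- the operator `P (E, Q, q)`, a polynomial in `ℤ[q][Q][E]` with coefficients to the left of the powers of `E`,
annihilates the values of `f` at all large `n` -/
def Ann (P : ℤ[X][X][X]) (f : ℕ → RatFunc ℚ) : Prop :=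
  ∃ N : ℕ, ∀ n : ℕ, N ≤ n → ∑ i ∈ Finset.range (P.natDegree + 1), at' n (P.coeff i) * f (n + i) = 0

/-- the normalised generator of the annihilator of `f` -/
structure IsGen (P : ℤ[X][X][X]) (f : ℕ → RatFunc ℚ) : Prop where
  ne_zero : P ≠ 0
  ann : Ann P f
  minimal : ∀ P' : ℤ[X][X][X], P' ≠ 0 → Ann P' f → P.natDegree ≤ P'.natDegree
  normal : ∀ r : ℤ[X][X], C r ∣ P → ∃ i j : ℕ, r ∣ C X ^ i * X ^ j

end Pool.Agent.H357.GC
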