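import Pool.Agent.H357.GC.Qb

set_option autoImplicit false

/-! Existence of the normalised generator (helper346, for helper357, MP_4fdcc5_gt). -/

open Polynomial

namespace Pool.Agent.H357.GC

namespace GenAux

theorem at_mul (n : ℕ) (a b : ℤ[X][X]) : at' n (a * b) = at' n a * at' n b := by
  unfold at'
  rw [eval_mul, map_mul]

theorem aeval_ne (p : ℤ[X]) (hp : p ≠ 0) : aeval (RatFunc.X : RatFunc ℚ) p ≠ 0 := by
  have h := QbAux.eval₂_ne ℚ p hp
  have h1 : algebraMap ℤ (RatFunc ℚ) = Int.castRingHom (RatFunc ℚ) := RingHom.ext_int _ _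
  rw [aeval_def, h1]
  exact h

theorem pow_inj : Function.Injective fun n : ℕ => (X ^ n : ℤ[X]) := by
  intro a b h
  have h1 : (X ^ a : ℤ[X]).natDegree = (X ^ b : ℤ[X]).natDegree := congrArg natDegree h
  rwa [natDegree_X_pow, natDegree_X_pow] at h1

theorem at_ne (c : ℤ[X][X]) (hc : c ≠ 0) : ∃ N : ℕ, ∀ n, N ≤ n → at' n c ≠ 0 := by
  have h1 : {x : ℤ[X] | c.IsRoot x}.Finite := by
    by_contra h
    exact hc (eq_zero_of_infinite_isRoot c h)
  have h2 : {n : ℕ | c.IsRoot (X ^ n : ℤ[X])}.Finite := h1.preimage pow_inj.injOn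
  obtain ⟨N, hN⟩ := h2.bddAbove
  refine ⟨N + 1, fun n hn h0 => ?_⟩
  refine aeval_ne (c.eval (X ^ n)) (fun h3 => ?_) h0
  have h4 : n ≤ N := hN h3
  omega

end GenAux

open GenAux

theorem exists_gen (f : ℕ → RatFunc ℚ) (P : ℤ[X][X][X]) (hP : P ≠ 0) (h : Ann P f) :
    ∃ P', IsGen P' f := by
  classical
  have hex : ∃ d : ℕ, ∃ P' : ℤ[X][X][X], P' ≠ 0 ∧ Ann P' f ∧ P'.natDegree = d :=
    ⟨_, P, hP, h, rfl⟩
  obtain ⟨P₀, h0, hA, hd⟩ := Nat.find_spec hex
  have hmin : ∀ P' : ℤ[X][X][X], P' ≠ 0 → Ann P' f → P₀.natDegree ≤ P'.natDegree := by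
    intro P' h1 h2
    rw [hd]
    exact Nat.find_min' hex ⟨P', h1, h2, rfl⟩
  have hcont : P₀.content ≠ 0 := fun h1 => h0 (content_eq_zero_iff.1 h1)
  refine ⟨P₀.primPart, P₀.primPart_ne_zero, ?_, ?_, ?_⟩
  · obtain ⟨N, hN⟩ := hA
    obtain ⟨N', hN'⟩ := at_ne P₀.content hcont
    refine ⟨max N N', fun n hn => ?_⟩
    have h1 := hN n (le_trans (le_max_left _ _) hn)
    have h2 := hN' n (le_trans (le_max_right _ _) hn)
    rw [natDegree_primPart]
    have h3 : at' n P₀.content * ∑ i ∈ Finset.range (P₀.natDegree + 1),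
        at' n (P₀.primPart.coeff i) * f (n + i) = 0 := by
      rw [← h1, Finset.mul_sum]
      refine Finset.sum_congr rfl fun i _ => ?_
      rw [← mul_assoc, ← at_mul]
      have h4 : P₀.content * P₀.primPart.coeff i = P₀.coeff i := by
        rw [← coeff_C_mul, ← eq_C_content_mul_primPart]
      rw [h4]
    exact (mul_eq_zero.1 h3).resolve_left h2
  · intro P' h1 h2
    rw [natDegree_primPart]
    exact hmin P' h1 h2
  · intro r hr
    exact ⟨0, 0, (P₀.isPrimitive_primPart r hr).dvd⟩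

end Pool.Agent.H357.GC
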