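import Pool.Agent.H357.GC.Mod
import Pool.Agent.H357.GC.Gen

set_option autoImplicit false

/-! The normalised generator of the double twist knot (helper357). -/

open Polynomial Matrix

namespace Pool.Agent.H357.GC

theorem sq_of {R : Type*} [CommRing R] {L : Type*} [Field L] (φ : R[X] →+* L) (h : φ X ≠ 0) :
    Sq φ (fun n => eval₂ (Int.castRingHom L) (φ X) (aa n)) (fun n => eval₂ (Int.castRingHom L) (φ X) (bb n))
      (fun n => eval₂ (Int.castRingHom L) (φ X)⁻¹ (aa n)) (fun n => eval₂ (Int.castRingHom L) (φ X)⁻¹ (bb n)) := by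
  refine ⟨h, fun n => ?_, fun n => ?_, fun n => ?_, fun n => ?_⟩
  · rw [aa_succ]
    simp only [eval₂_add, eval₂_mul, eval₂_pow, eval₂_X]
  · rw [bb_succ]
    simp only [eval₂_add, eval₂_sub, eval₂_mul, eval₂_pow, eval₂_X, eval₂_one]
  · rw [aa_succ]
    simp only [eval₂_add, eval₂_mul, eval₂_pow, eval₂_X]
  · rw [bb_succ]
    simp only [eval₂_add, eval₂_sub, eval₂_mul, eval₂_pow, eval₂_X, eval₂_one]

/-- the cyclotomic function -/
noncomputable def Jh (n : ℕ) : RatFunc ℚ :=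
  eval₂ (Int.castRingHom (RatFunc ℚ)) RatFunc.X (aa n) * eval₂ (Int.castRingHom (RatFunc ℚ)) (RatFunc.X)⁻¹ (aa n)

/-- `q` in the field of rational functions -/
noncomputable def phZ : ℤ[X] →+* RatFunc ℚ := ((aeval (RatFunc.X : RatFunc ℚ) : ℤ[X] →ₐ[ℤ] RatFunc ℚ) : ℤ[X] →+* RatFunc ℚ)

theorem phZ_X : phZ X = RatFunc.X := by
  unfold phZ
  rw [RingHom.coe_coe, aeval_X]

theorem at_ev (n : ℕ) (c : ℤ[X][X]) : at' n c = ev phZ n c := rfl

theorem sqZ : Sq phZ (fun n => eval₂ (Int.castRingHom (RatFunc ℚ)) RatFunc.X (aa n))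
    (fun n => eval₂ (Int.castRingHom (RatFunc ℚ)) RatFunc.X (bb n))
    (fun n => eval₂ (Int.castRingHom (RatFunc ℚ)) (RatFunc.X)⁻¹ (aa n))
    (fun n => eval₂ (Int.castRingHom (RatFunc ℚ)) (RatFunc.X)⁻¹ (bb n)) := by
  have h := sq_of phZ (by rw [phZ_X]; exact RatFunc.X_ne_zero)
  rw [phZ_X] at h
  exact h

theorem SS_ne {R : Type*} [CommRing R] [IsDomain R] (i : ℕ) : (SS i : R[X][X]) ≠ 0 := by
  unfold SS
  exact mul_ne_zero (C_ne_zero.2 (pow_ne_zero _ X_ne_zero)) (pow_ne_zero _ X_ne_zero)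

/-- there is a nonzero annihilating operator -/
theorem exists_ann : ∃ P : ℤ[X][X][X], P ≠ 0 ∧ Ann P Jh := by
  classical
  let e : Fin 4 ≃ Fin 2 × Fin 2 := (finProdFinEquiv : Fin 2 × Fin 2 ≃ Fin (2 * 2)).symm
  let N : Matrix (Fin 5) (Fin 5) ℤ[X][X] := fun j k => if h : (k : ℕ) < 4 then rr (j : ℕ) (e ⟨k, h⟩) else 0
  have hdet : N.det = 0 := by
    refine Matrix.det_eq_zero_of_column_eq_zero 4 fun i => ?_
    show (if h : ((4 : Fin 5) : ℕ) < 4 then rr (i : ℕ) (e ⟨(4 : Fin 5), h⟩) else 0) = 0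
    rw [dif_neg (by decide)]
  obtain ⟨c, hc0, hc⟩ := exists_vecMul_eq_zero_iff.2 hdet
  have hrel : ∀ i : Fin 2 × Fin 2, ∑ j : Fin 5, c j * rr (j : ℕ) i = 0 := by
    intro i
    have hk : ((Fin.castSucc (e.symm i) : Fin 5) : ℕ) < 4 := (e.symm i).2
    have h1 := congrFun hc (Fin.castSucc (e.symm i))
    simp only [vecMul, dotProduct, Pi.zero_apply] at h1
    rw [← h1]
    refine Finset.sum_congr rfl fun j _ => ?_
    show _ = c j * (if h : ((Fin.castSucc (e.symm i) : Fin 5) : ℕ) < 4 then rr (j : ℕ) (e ⟨_, h⟩) else 0)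
    rw [dif_pos hk]
    have h2 : (⟨((Fin.castSucc (e.symm i) : Fin 5) : ℕ), hk⟩ : Fin 4) = e.symm i := rfl
    rw [h2, e.apply_symm_apply]
  set P : ℤ[X][X][X] := ∑ j : Fin 5, C (c j * SS (j : ℕ)) * X ^ (j : ℕ) with hP
  have hcoef : ∀ j : Fin 5, P.coeff (j : ℕ) = c j * SS (j : ℕ) := by
    intro j
    simp only [hP, finsetSum_coeff, coeff_C_mul, coeff_X_pow]
    rw [Finset.sum_eq_single j]
    · rw [if_pos rfl, mul_one]
    · intro k _ hk
      rw [if_neg (fun h => hk (Fin.ext h.symm)), mul_zero]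
    · intro hn
      exact absurd (Finset.mem_univ _) hn
  refine ⟨P, ?_, 0, fun n _ => ?_⟩
  · intro h0
    apply hc0
    funext j
    have h1 := hcoef j
    rw [h0, coeff_zero] at h1
    exact (mul_eq_zero.1 h1.symm).resolve_right (SS_ne _)
  · have hdeg : P.natDegree < 5 := by
      by_cases hP0 : P = 0
      · rw [hP0]
        simp
      · rw [natDegree_lt_iff_degree_lt hP0, hP]
        exact_mod_cast degree_sum_fin_lt (fun j : Fin 5 => c j * SS (j : ℕ))
    have h1 : ∑ i ∈ Finset.range (P.natDegree + 1), at' n (P.coeff i) * Jh (n + i) =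
        ∑ i ∈ Finset.range 5, at' n (P.coeff i) * Jh (n + i) := by
      refine Finset.sum_subset (Finset.range_subset_range.2 (by omega)) fun i _ hi => ?_
      have h2 : P.coeff i = 0 := coeff_eq_zero_of_natDegree_lt (by
        rw [Finset.mem_range] at hi
        omega)
      rw [h2]
      unfold at'
      rw [eval_zero, map_zero, zero_mul]
    rw [h1, ← Fin.sum_univ_eq_sum_range (fun i => at' n (P.coeff i) * Jh (n + i)) 5]
    have h2 : ∀ j : Fin 5, at' n (P.coeff (j : ℕ)) * Jh (n + (j : ℕ)) =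
        ∑ i, ev phZ n (c j * rr (j : ℕ) i) * ww (fun n => eval₂ (Int.castRingHom (RatFunc ℚ)) RatFunc.X (aa n))
          (fun n => eval₂ (Int.castRingHom (RatFunc ℚ)) RatFunc.X (bb n))
          (fun n => eval₂ (Int.castRingHom (RatFunc ℚ)) (RatFunc.X)⁻¹ (aa n))
          (fun n => eval₂ (Int.castRingHom (RatFunc ℚ)) (RatFunc.X)⁻¹ (bb n)) n i := by
      intro j
      rw [hcoef j, at_ev, map_mul, mul_assoc]
      have h3 := rr_ev sqZ (j : ℕ) n
      have h4 : Jh (n + (j : ℕ)) = (fun n => eval₂ (Int.castRingHom (RatFunc ℚ)) RatFunc.X (aa n)) (n + (j : ℕ)) *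
        (fun n => eval₂ (Int.castRingHom (RatFunc ℚ)) (RatFunc.X)⁻¹ (aa n)) (n + (j : ℕ)) := rfl
      rw [h4, ← h3, Finset.mul_sum]
      refine Finset.sum_congr rfl fun i _ => ?_
      rw [map_mul]
      ring
    rw [Finset.sum_congr rfl fun j _ => h2 j, Finset.sum_comm]
    refine Finset.sum_eq_zero fun i _ => ?_
    rw [← Finset.sum_mul, ← map_sum, hrel i, map_zero, zero_mul]

/-! ### the main theorem -/

/-- the field extension -/
theorem exists_ext : ∃ Φ : RatFunc ℚ →+* RatFunc ℂ, Φ RatFunc.X = RatFunc.X := by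
  have hinj : Function.Injective ((algebraMap ℂ[X] (RatFunc ℂ)).comp (mapRingHom (algebraMap ℚ ℂ))) := by
    rw [RingHom.coe_comp]
    exact (IsFractionRing.injective ℂ[X] (RatFunc ℂ)).comp (map_injective _ (algebraMap ℚ ℂ).injective)
  refine ⟨IsFractionRing.lift (K := RatFunc ℚ) hinj, ?_⟩
  have h := IsFractionRing.lift_algebraMap (K := RatFunc ℚ) hinj (X : ℚ[X])
  rw [RatFunc.algebraMap_X] at h
  rw [h, RingHom.comp_apply, coe_mapRingHom, map_X, RatFunc.algebraMap_X]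

theorem chi_dvd (F : ℂ[X][X]) (h : XE ∣ F.map (algebraMap ℂ[X] (RatFunc ℂ))) : chi ∣ F := by
  by_cases hF : F = 0
  · rw [hF]
    exact dvd_zero _
  have hc : F.content ≠ 0 := fun h1 => hF (content_eq_zero_iff.1 h1)
  have hu : IsUnit (C (algebraMap ℂ[X] (RatFunc ℂ) F.content) : (RatFunc ℂ)[X]) := by
    rw [isUnit_C, isUnit_iff_ne_zero]
    intro h0
    exact hc ((map_eq_zero_iff _ (IsFractionRing.injective ℂ[X] (RatFunc ℂ))).1 h0)
  have h1 : XE ∣ F.primPart.map (algebraMap ℂ[X] (RatFunc ℂ)) := by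
    rw [F.eq_C_content_mul_primPart, Polynomial.map_mul, map_C] at h
    exact (hu.dvd_mul_left).1 h
  have hu4 : IsUnit (C (qq ^ 4) : (RatFunc ℂ)[X]) :=
    isUnit_C.2 (isUnit_iff_ne_zero.2 (pow_ne_zero 4 (y0 qq_nonconst)))
  have h2 : chi.map (algebraMap ℂ[X] (RatFunc ℂ)) ∣ F.primPart.map (algebraMap ℂ[X] (RatFunc ℂ)) := by
    rw [chi_map]
    exact (hu4.mul_left_dvd).2 h1
  have h3 := chi_prim.dvd_of_fraction_map_dvd_fraction_map h2
  rw [F.eq_C_content_mul_primPart]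
  exact h3.mul_left _

/-- the factors between the rows -/
noncomputable def TT (d j : ℕ) : ℂ[X][X] := C (X ^ ((d ^ 2 + 2 * d) - (j ^ 2 + 2 * j))) * X ^ (2 * d - 2 * j)

theorem TT_SS {d j : ℕ} (h : j ≤ d) : TT d j * SS j = SS d := by
  unfold TT SS
  have h1 : j ^ 2 + 2 * j ≤ d ^ 2 + 2 * d := by nlinarith
  have e1 : (X : ℂ[X]) ^ (d ^ 2 + 2 * d) = X ^ ((d ^ 2 + 2 * d) - (j ^ 2 + 2 * j)) * X ^ (j ^ 2 + 2 * j) := by
    rw [← pow_add, Nat.sub_add_cancel h1]
  have e2 : (X : ℂ[X][X]) ^ (2 * d) = X ^ (2 * d - 2 * j) * X ^ (2 * j) := by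
    rw [← pow_add, Nat.sub_add_cancel (by omega)]
  rw [e1, e2, C_mul]
  ring

theorem red_TT (d j : ℕ) : red (TT d j) = X ^ (2 * d - 2 * j) := by
  unfold TT red
  simp

theorem main_C {a b a' b' : ℕ → RatFunc ℂ} (hS : Sq (algebraMap ℂ[X] (RatFunc ℂ)) a b a' b')
    (hne : ∀ n, a n * a' n ≠ 0) (P : ℂ[X][X][X]) (d : ℕ) (hd : P.natDegree ≤ d)
    (hP : ∃ N : ℕ, ∀ n : ℕ, N ≤ n → ∑ i ∈ Finset.range (d + 1),
      ev (algebraMap ℂ[X] (RatFunc ℂ)) n (P.coeff i) * (a (n + i) * a' (n + i)) = 0) :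
    chi ∣ P.map red := by
  have hφ := IsFractionRing.injective ℂ[X] (RatFunc ℂ)
  set u : Fin 2 × Fin 2 → ℂ[X][X] := fun i => ∑ j ∈ Finset.range (d + 1), P.coeff j * TT d j * rr j i with hu
  have hK : inK (algebraMap ℂ[X] (RatFunc ℂ)) a b a' b' u := by
    obtain ⟨N, hN⟩ := hP
    refine ⟨N, fun n hn => ?_⟩
    have h1 : ∀ i, ev (algebraMap ℂ[X] (RatFunc ℂ)) n (u i) * ww a b a' b' n i = ∑ j ∈ Finset.range (d + 1),
        ev (algebraMap ℂ[X] (RatFunc ℂ)) n (P.coeff j * TT d j) *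
          (ev (algebraMap ℂ[X] (RatFunc ℂ)) n (rr j i) * ww a b a' b' n i) := by
      intro i
      rw [hu]
      simp only
      rw [map_sum, Finset.sum_mul]
      refine Finset.sum_congr rfl fun j _ => ?_
      rw [map_mul]
      ring
    rw [Finset.sum_congr rfl fun i _ => h1 i, Finset.sum_comm]
    have h2 : ∀ j ∈ Finset.range (d + 1), ∑ i, ev (algebraMap ℂ[X] (RatFunc ℂ)) n (P.coeff j * TT d j) *
          (ev (algebraMap ℂ[X] (RatFunc ℂ)) n (rr j i) * ww a b a' b' n i) =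
        ev (algebraMap ℂ[X] (RatFunc ℂ)) n (SS d) *
          (ev (algebraMap ℂ[X] (RatFunc ℂ)) n (P.coeff j) * (a (n + j) * a' (n + j))) := by
      intro j hj
      rw [← Finset.mul_sum, rr_ev hS j n, ← TT_SS (Nat.lt_succ_iff.1 (Finset.mem_range.1 hj)), map_mul, map_mul]
      ring
    rw [Finset.sum_congr rfl h2, ← Finset.mul_sum, hN n hn, mul_zero]
  have hu0 := K_zero hφ hS hne u hK
  have hr : ro (rr 0) ≠ 0 := by
    intro h0
    have h1 := congrFun h0 (0, 0)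
    have h2 : ro (rr 0) (0, 0) = 1 := by
      unfold ro rr
      simp
    rw [h2] at h1
    exact one_ne_zero h1
  refine chi_dvd _ (dvd_of_row Mb XE XE_irr Mb_XE (ro (rr 0)) hr _ ?_)
  have hdeg : ((P.map red).map (algebraMap ℂ[X] (RatFunc ℂ))).natDegree < d + 1 := by
    have h1 := natDegree_map_le (p := P.map red) (f := algebraMap ℂ[X] (RatFunc ℂ))
    have h2 := natDegree_map_le (p := P) (f := red)
    omega
  rw [aeval_eq_sum_range' hdeg]
  have h0 := y0 qq_nonconst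
  have h2 : qq ^ (2 * d) • (ro (rr 0) ᵥ* ∑ i ∈ Finset.range (d + 1),
      ((P.map red).map (algebraMap ℂ[X] (RatFunc ℂ))).coeff i • Mb ^ i) = 0 := by
    rw [vecMul_sum, Finset.smul_sum]
    funext k
    have h3 : algebraMap ℂ[X] (RatFunc ℂ) (red (u k)) = 0 := by
      rw [hu0]
      simp
    rw [Finset.sum_apply, Pi.zero_apply, ← h3, hu]
    simp only
    rw [map_sum, map_sum]
    refine Finset.sum_congr rfl fun j hj => ?_
    have hjd : j ≤ d := Nat.lt_succ_iff.1 (Finset.mem_range.1 hj)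
    have h4 : algebraMap ℂ[X] (RatFunc ℂ) (red (rr j k)) = qq ^ (2 * j) * (ro (rr 0) ᵥ* Mb ^ j) k := by
      have h5 := congrFun (ro_it (rr 0) j) k
      rw [← rr_it] at h5
      exact h5
    have h6 : qq ^ (2 * d) = qq ^ (2 * d - 2 * j) * qq ^ (2 * j) := by
      rw [← pow_add, Nat.sub_add_cancel (by omega)]
    have hX : algebraMap ℂ[X] (RatFunc ℂ) X = qq := rfl
    rw [map_mul, map_mul, map_mul, map_mul, red_TT, h4, map_pow, hX, vecMul_smul, coeff_map, coeff_map, h6]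
    simp only [Pi.smul_apply, smul_eq_mul]
    ring
  exact (smul_eq_zero.1 h2).resolve_left (pow_ne_zero _ h0)

/-- `q = 1`, with complex coefficients -/
noncomputable def red1 : ℤ[X][X] →+* ℂ[X] := mapRingHom ((Int.castRingHom ℂ).comp (evalRingHom 1))

theorem main_dvd (P : ℤ[X][X][X]) (hP : Ann P Jh) : chi ∣ P.map red1 := by
  obtain ⟨Φ, hΦ⟩ := exists_ext
  set P' : ℂ[X][X][X] := P.map (mapRingHom (mapRingHom (Int.castRingHom ℂ))) with hP'
  have e1 : P'.map red = P.map red1 := by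
    rw [hP', Polynomial.map_map]
    congr 1
    refine RingHom.ext fun c => ?_
    unfold red red1
    rw [RingHom.comp_apply, coe_mapRingHom, coe_mapRingHom, coe_mapRingHom, Polynomial.map_map]
    congr 1
    refine RingHom.ext fun c => ?_
    rw [RingHom.comp_apply, RingHom.comp_apply, coe_mapRingHom, coe_evalRingHom, coe_evalRingHom, eval_map,
      eval₂_at_one]
  rw [← e1]
  have hφX : algebraMap ℂ[X] (RatFunc ℂ) X = RatFunc.X := RatFunc.algebraMap_X
  have hS := sq_of (algebraMap ℂ[X] (RatFunc ℂ)) (by rw [hφX]; exact RatFunc.X_ne_zero)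
  rw [hφX] at hS
  refine main_C hS (fun n => mul_ne_zero (aa_ne ℂ n).1 (aa_ne ℂ n).2) P' P.natDegree natDegree_map_le ?_
  obtain ⟨N, hN⟩ := hP
  refine ⟨N, fun n hn => ?_⟩
  have h1 := congrArg Φ (hN n hn)
  rw [map_zero, map_sum] at h1
  rw [← h1]
  refine Finset.sum_congr rfl fun i _ => ?_
  rw [map_mul]
  have e2 : Φ (at' n (P.coeff i)) = ev (algebraMap ℂ[X] (RatFunc ℂ)) n (P'.coeff i) := by
    have h2 : Φ.comp phZ = (algebraMap ℂ[X] (RatFunc ℂ)).comp (mapRingHom (Int.castRingHom ℂ)) := by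
      refine Polynomial.ringHom_ext (fun z => ?_) ?_
      · rw [RingHom.comp_apply, RingHom.comp_apply, coe_mapRingHom, map_C]
        simp
      · rw [RingHom.comp_apply, RingHom.comp_apply, coe_mapRingHom, map_X, phZ_X, hΦ, hφX]
    have h3 : Φ (at' n (P.coeff i)) = (Φ.comp phZ) ((P.coeff i).eval (X ^ n)) := rfl
    rw [h3, h2, hP', coeff_map, ev_apply, RingHom.comp_apply]
    congr 1
    have hx : (X ^ n : ℂ[X]) = mapRingHom (Int.castRingHom ℂ) (X ^ n) := by
      rw [map_pow, coe_mapRingHom, map_X]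
    rw [coe_mapRingHom (mapRingHom (Int.castRingHom ℂ)), eval_map, hx, eval₂_at_apply]
  have e3 : ∀ (z : RatFunc ℚ) (p : ℤ[X]), Φ (eval₂ (Int.castRingHom (RatFunc ℚ)) z p) =
      eval₂ (Int.castRingHom (RatFunc ℂ)) (Φ z) p := by
    intro z p
    rw [hom_eval₂]
    congr 1
    exact RingHom.ext_int _ _
  rw [e2]
  unfold Jh
  rw [map_mul, e3, e3, map_inv₀, hΦ]

end Pool.Agent.H357.GC
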