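import Mathlib

set_option autoImplicit false

/-! Squares of linear forms and biquadratic fields (helper357). -/

open Polynomial

namespace Pool.Agent.H357.GC

/-! ### four linear forms which are squares -/

theorem sqfac {a b c : ℂ[X]} (h : IsCoprime a b) (hab : a * b = c ^ 2) : ∃ u : ℂ[X], a = u ^ 2 := by
  obtain ⟨d, hd⟩ := exists_associated_pow_of_mul_eq_pow' h hab
  obtain ⟨v, hv⟩ := hd
  obtain ⟨e, he, hev⟩ := Polynomial.isUnit_iff.1 v.isUnit
  obtain ⟨s, hs⟩ := IsAlgClosed.exists_pow_nat_eq e (n := 2) (by norm_num)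
  refine ⟨d * C s, ?_⟩
  rw [← hv, ← hev, mul_pow, ← C_pow, hs]

theorem dvd_wr {f u r : ℂ[X]} (h : f = u ^ 2) : u ∣ wronskian f r := by
  refine ⟨u * derivative r - 2 * derivative u * r, ?_⟩
  rw [h, wronskian]
  simp only [derivative_pow, Nat.cast_ofNat, map_ofNat]
  ring

theorem wr_lin (p r : ℂ[X]) (a b : ℂ) : wronskian (p - C a * r) (p - C b * r) = C (a - b) * wronskian p r := by
  unfold wronskian
  simp only [derivative_sub, derivative_mul, derivative_C, zero_mul, zero_add, C_sub]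
  ring

theorem cop_lin {p r : ℂ[X]} (h : IsCoprime p r) {a b : ℂ} (hab : a ≠ b) :
    IsCoprime (p - C a * r) (p - C b * r) := by
  obtain ⟨s, t, hst⟩ := h
  have hne : b - a ≠ 0 := sub_ne_zero.2 (Ne.symm hab)
  have hc : C (b - a)⁻¹ * C (b - a) = (1 : ℂ[X]) := by
    rw [← C_mul, inv_mul_cancel₀ hne, C_1]
  -- r = C (b-a)⁻¹ * (f - g), p = f + C a * r
  refine ⟨s + (s * C a + t) * C (b - a)⁻¹, -((s * C a + t) * C (b - a)⁻¹), ?_⟩
  have e : (s + (s * C a + t) * C (b - a)⁻¹) * (p - C a * r) +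
      -((s * C a + t) * C (b - a)⁻¹) * (p - C b * r) =
      s * p - s * C a * r + (s * C a + t) * (C (b - a)⁻¹ * C (b - a)) * r := by
    rw [C_sub]
    ring
  rw [e, hc]
  linear_combination hst

theorem four_squares {p r : ℂ[X]} (h : IsCoprime p r) (c : Fin 4 → ℂ) (hc : Function.Injective c)
    (u : Fin 4 → ℂ[X]) (hu : ∀ i, p - C (c i) * r = u i ^ 2) : wronskian p r = 0 := by
  by_contra hw
  have hcop : ∀ i j, i ≠ j → IsCoprime (u i) (u j) := by
    intro i j hij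
    have h1 := cop_lin h (hc.ne hij)
    rw [hu i, hu j] at h1
    exact (IsCoprime.pow_iff (by norm_num) (by norm_num)).1 h1
  have hdv : ∀ i, u i ∣ wronskian p r := by
    intro i
    have h1 := dvd_wr (r := r) (hu i)
    have h2 : wronskian (p - C (c i) * r) r = wronskian p r := by
      unfold wronskian
      simp only [derivative_sub, derivative_mul, derivative_C, zero_mul, zero_add]
      ring
    rw [h2] at h1
    exact h1
  have h01 := (hcop 0 1 (by decide)).mul_dvd (hdv 0) (hdv 1)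
  have h23 := (hcop 2 3 (by decide)).mul_dvd (hdv 2) (hdv 3)
  have hcc : IsCoprime (u 0 * u 1) (u 2 * u 3) :=
    IsCoprime.mul_left (IsCoprime.mul_right (hcop 0 2 (by decide)) (hcop 0 3 (by decide)))
      (IsCoprime.mul_right (hcop 1 2 (by decide)) (hcop 1 3 (by decide)))
  have hall := hcc.mul_dvd h01 h23
  have hne : ∀ i, u i ≠ 0 := fun i hi => hw (by
    have := hdv i
    rw [hi] at this
    exact zero_dvd_iff.1 this)
  have hdeg := natDegree_le_of_dvd hall hw
  rw [natDegree_mul (mul_ne_zero (hne 0) (hne 1)) (mul_ne_zero (hne 2) (hne 3)),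
    natDegree_mul (hne 0) (hne 1), natDegree_mul (hne 2) (hne 3)] at hdeg
  have key : ∀ i j, i ≠ j → natDegree (wronskian p r) < 2 * natDegree (u i) + 2 * natDegree (u j) := by
    intro i j hij
    have h1 := wr_lin p r (c i) (c j)
    have h2 : c i - c j ≠ 0 := sub_ne_zero.2 (hc.ne hij)
    have h3 : wronskian (p - C (c i) * r) (p - C (c j) * r) ≠ 0 := by
      rw [h1]
      exact mul_ne_zero (C_ne_zero.2 h2) hw
    have h4 := natDegree_wronskian_lt_add h3
    rw [h1, natDegree_C_mul h2, hu i, hu j, natDegree_pow, natDegree_pow] at h4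
    exact h4
  have k1 := key 0 1 (by decide)
  have k2 := key 2 3 (by decide)
  omega

/-! ### squares in the field of rational functions -/

theorem isInt {g : RatFunc ℂ} {f : ℂ[X]} (h : g ^ 2 = algebraMap ℂ[X] (RatFunc ℂ) f) :
    ∃ k : ℂ[X], g = algebraMap ℂ[X] (RatFunc ℂ) k ∧ k ^ 2 = f := by
  have h1 : IsIntegral ℂ[X] g := by
    refine IsIntegral.of_pow (n := 2) (by norm_num) ?_
    rw [h]
    exact isIntegral_algebraMap
  obtain ⟨k, hk⟩ := IsIntegrallyClosed.isIntegral_iff.1 h1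
  refine ⟨k, hk.symm, ?_⟩
  rw [← hk, ← map_pow] at h
  exact (IsFractionRing.injective ℂ[X] (RatFunc ℂ)) h

theorem nonsq {f : ℂ[X]} {a : ℂ} (h0 : f.eval a = 0) (h1 : (derivative f).eval a ≠ 0) (g : RatFunc ℂ) :
    g ^ 2 ≠ algebraMap ℂ[X] (RatFunc ℂ) f := by
  intro h
  obtain ⟨k, -, hk⟩ := isInt h
  rw [← hk, eval_pow] at h0
  have h2 : k.eval a = 0 := by
    exact pow_eq_zero_iff (two_ne_zero) |>.1 h0
  refine h1 ?_
  rw [← hk, derivative_pow]
  simp [h2]

/-- elements algebraic over the constants are constants -/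
theorem alg_const (y : RatFunc ℂ) (p : ℂ[X]) (hp : p ≠ 0) (h : aeval y p = 0) : ∃ c : ℂ, y = algebraMap ℂ (RatFunc ℂ) c := by
  have hint : IsAlgebraic ℂ y := ⟨p, hp, h⟩
  have h2 : IsIntegral ℂ y := hint.isIntegral
  have h3 := IsAlgClosed.degree_eq_one_of_irreducible ℂ (minpoly.irreducible h2)
  obtain ⟨c, hc⟩ := minpoly.mem_range_of_degree_eq_one ℂ y h3
  exact ⟨c, hc.symm⟩

/-- the two quadratic polynomials are both squares only at constants -/
theorem quad_const (y s t : RatFunc ℂ) (hs : s ^ 2 = y ^ 2 - 2 * y + 5) (ht : t ^ 2 = 5 * y ^ 2 - 2 * y + 1) :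
    ∃ c : ℂ, y = algebraMap ℂ (RatFunc ℂ) c := by
  set p := y.num with hp
  set r := y.denom with hr
  have hcop : IsCoprime p r := y.isCoprime_num_denom
  have hr0 : r ≠ 0 := y.denom_ne_zero
  have hr0' : algebraMap ℂ[X] (RatFunc ℂ) r ≠ 0 := by
    intro h
    exact hr0 ((map_eq_zero_iff _ (IsFractionRing.injective ℂ[X] (RatFunc ℂ))).1 h)
  have hy : y = algebraMap ℂ[X] (RatFunc ℂ) p / algebraMap ℂ[X] (RatFunc ℂ) r := (y.num_div_denom).symm
  have hI : (Complex.I : ℂ) ^ 2 = -1 := Complex.I_sq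
  have hC : (C Complex.I : ℂ[X]) ^ 2 = -1 := by
    rw [← C_pow, hI, C_neg, C_1]
  -- first quadratic
  have e1 : (s * algebraMap ℂ[X] (RatFunc ℂ) r) ^ 2 = algebraMap ℂ[X] (RatFunc ℂ) (p ^ 2 - 2 * p * r + 5 * r ^ 2) := by
    rw [mul_pow, hs, hy]
    simp only [map_add, map_sub, map_mul, map_pow, map_ofNat]
    field_simp
  obtain ⟨k1, -, hk1⟩ := isInt e1
  have e2 : (t * algebraMap ℂ[X] (RatFunc ℂ) r) ^ 2 = algebraMap ℂ[X] (RatFunc ℂ) (5 * p ^ 2 - 2 * p * r + r ^ 2) := by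
    rw [mul_pow, ht, hy]
    simp only [map_add, map_sub, map_mul, map_pow, map_ofNat]
    field_simp
  obtain ⟨k2, -, hk2⟩ := isInt e2
  set c : Fin 4 → ℂ := ![1 + 2 * Complex.I, 1 - 2 * Complex.I, (1 + 2 * Complex.I) / 5, (1 - 2 * Complex.I) / 5] with hc
  have hinj : Function.Injective c := by
    intro i j hij
    fin_cases i <;> fin_cases j <;>
      first
        | rfl
        | (exfalso
           simp only [hc, Fin.mk_zero, Fin.mk_one, Fin.reduceFinMk, Fin.isValue, Matrix.cons_val] at hij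
           have h2 := congrArg Complex.im hij
           norm_num [Complex.div_im, Complex.normSq] at h2)
  have f1 : (p - C (c 0) * r) * (p - C (c 1) * r) = k1 ^ 2 := by
    rw [hk1]
    simp only [hc, Matrix.cons_val_zero, Matrix.cons_val_one, C_add, C_sub, C_mul, C_1, map_ofNat]
    linear_combination (-4 * r ^ 2) * hC
  have h5 : (C ((5:ℂ)⁻¹) : ℂ[X]) * 5 = 1 := by
    have : (5 : ℂ[X]) = C 5 := (map_ofNat C 5).symm
    rw [this, ← C_mul]
    norm_num
  obtain ⟨s5, hs5⟩ := IsAlgClosed.exists_pow_nat_eq (5:ℂ)⁻¹ (n := 2) (by norm_num)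
  have f2 : (p - C (c 2) * r) * (p - C (c 3) * r) = (C s5 * k2) ^ 2 := by
    rw [mul_pow, hk2, ← C_pow, hs5]
    simp only [hc, Matrix.cons_val, div_eq_mul_inv, C_add, C_sub, C_mul, C_1, map_ofNat]
    have h55 : (C ((5:ℂ)⁻¹) : ℂ[X]) ^ 2 * 5 = C ((5:ℂ)⁻¹) := by
      rw [sq, mul_assoc, h5, mul_one]
    linear_combination (-4 * r ^ 2 * C ((5:ℂ)⁻¹) ^ 2) * hC - p ^ 2 * h5 + r ^ 2 * h55
  have g0 := sqfac (cop_lin hcop (hinj.ne (by decide : (0 : Fin 4) ≠ 1))) f1
  have g1 := sqfac (cop_lin hcop (hinj.ne (by decide : (1 : Fin 4) ≠ 0))) ((mul_comm _ _).trans f1)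
  have g2 := sqfac (cop_lin hcop (hinj.ne (by decide : (2 : Fin 4) ≠ 3))) f2
  have g3 := sqfac (cop_lin hcop (hinj.ne (by decide : (3 : Fin 4) ≠ 2))) ((mul_comm _ _).trans f2)
  obtain ⟨u0, hu0⟩ := g0
  obtain ⟨u1, hu1⟩ := g1
  obtain ⟨u2, hu2⟩ := g2
  obtain ⟨u3, hu3⟩ := g3
  have hw := four_squares hcop c hinj ![u0, u1, u2, u3] (by
    intro i
    fin_cases i
    · exact hu0
    · exact hu1
    · exact hu2
    · exact hu3)
  rw [hcop.wronskian_eq_zero_iff] at hw
  have hp0 := derivative_eq_zero.1 hw.1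
  have hr0d := derivative_eq_zero.1 hw.2
  rw [natDegree_eq_zero] at hp0 hr0d
  obtain ⟨a, ha⟩ := hp0
  obtain ⟨b, hb⟩ := hr0d
  refine ⟨a / b, ?_⟩
  rw [hy, ← ha, ← hb, map_div₀]
  rfl

end Pool.Agent.H357.GC
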