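import Pool.Agent.H357.GC.Geo

set_option autoImplicit false

/-! The quartic polynomial of the eigenvalues of a tensor product of two matrices of size two (helper357). -/

open Polynomial

namespace Pool.Agent.H357.GC

theorem root_sq {K : Type*} [Field K] (T1 T2 d1 d2 Y : K) (hY : Y ≠ 0) (hD : T2 ^ 2 * d1 - T1 ^ 2 * d2 ≠ 0)
    (h : Y ^ 4 - T1 * T2 * Y ^ 3 + (T1 ^ 2 * d2 + T2 ^ 2 * d1 - 2 * d1 * d2) * Y ^ 2 - T1 * T2 * (d1 * d2) * Y +
      (d1 * d2) ^ 2 = 0) : ∃ s : K, s ^ 2 = T1 ^ 2 - 4 * d1 := by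
  set W : K := (T2 ^ 2 * d1 - T1 ^ 2 * d2) * Y with hW
  have hW0 : W ≠ 0 := mul_ne_zero hD hY
  set N : K := T1 * Y ^ 3 + T2 * (d1 - T1 ^ 2) * Y ^ 2 + T1 * (T2 ^ 2 * d1 - d1 * d2) * Y - T2 * d1 * (d1 * d2) with hN
  have key : N ^ 2 - T1 * W * N + d1 * W ^ 2 = 0 := by
    rw [hN, hW]
    linear_combination (T1 ^ 2 * Y ^ 2 + T1 * T2 * (2 * d1 - T1 ^ 2) * Y + T2 ^ 2 * d1 ^ 2) * h
  refine ⟨(2 * N - T1 * W) / W, ?_⟩
  rw [div_pow, div_eq_iff (pow_ne_zero 2 hW0)]
  linear_combination 4 * key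

theorem quad_fac {K : Type*} [Field K] (T1 T2 d1 d2 a b g e : K) (hT1 : T1 ≠ 0) (hT2 : T2 ≠ 0) (hd1 : d1 ≠ 0)
    (hd2 : d2 ≠ 0) (h3 : a + g = -(T1 * T2)) (h2 : b + e + a * g = T1 ^ 2 * d2 + T2 ^ 2 * d1 - 2 * d1 * d2)
    (h1 : a * e + b * g = -(T1 * T2 * (d1 * d2))) (h0 : b * e = (d1 * d2) ^ 2) :
    (∃ s : K, s ^ 2 = (T1 ^ 2 - 4 * d1) * (T2 ^ 2 - 4 * d2)) ∨ (∃ s : K, s ^ 2 = T1 ^ 2 - 4 * d1) ∨
      (∃ s : K, s ^ 2 = T2 ^ 2 - 4 * d2) := by
  have hc : d1 * d2 ≠ 0 := mul_ne_zero hd1 hd2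
  have k1 : a * (e - d1 * d2) + g * (b - d1 * d2) = 0 := by
    linear_combination h1 - (d1 * d2) * h3
  have k2 : (b - d1 * d2) * (g * b - a * (d1 * d2)) = 0 := by
    linear_combination b * k1 - a * h0
  rcases mul_eq_zero.1 k2 with hb | hg
  · left
    have hb' : b = d1 * d2 := sub_eq_zero.1 hb
    have he : e = d1 * d2 := by
      have h4 : (d1 * d2) * e = (d1 * d2) * (d1 * d2) := by
        rw [hb'] at h0
        linear_combination h0
      exact mul_left_cancel₀ hc h4
    refine ⟨a - g, ?_⟩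
    rw [hb', he] at h2
    linear_combination (a + g - T1 * T2) * h3 - 4 * h2
  · right
    obtain ⟨r, hb⟩ : ∃ r : K, b = r * (d1 * d2) := ⟨b / (d1 * d2), by field_simp⟩
    have ha : a = r * g := by
      have h4 : (d1 * d2) * a = (d1 * d2) * (r * g) := by
        rw [hb] at hg
        linear_combination -hg
      exact mul_left_cancel₀ hc h4
    have he : e * r = d1 * d2 := by
      have h4 : (d1 * d2) * (e * r) = (d1 * d2) * (d1 * d2) := by
        rw [hb] at h0
        linear_combination h0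
      exact mul_left_cancel₀ hc h4
    have hg' : (1 + r) * g = -(T1 * T2) := by
      rw [ha] at h3
      linear_combination h3
    have h1r : 1 + r ≠ 0 := by
      intro h
      rw [h, zero_mul] at hg'
      exact (mul_ne_zero hT1 hT2) (neg_eq_zero.1 hg'.symm)
    have h2' : r ^ 2 * g ^ 2 = r * (T1 ^ 2 * d2 + T2 ^ 2 * d1) - d1 * d2 * (1 + r) ^ 2 := by
      rw [ha, hb] at h2
      linear_combination r * h2 - he
    have key : (d1 * (1 + r) ^ 2 - r * T1 ^ 2) * (d2 * (1 + r) ^ 2 - r * T2 ^ 2) = 0 := by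
      linear_combination (1 + r) ^ 2 * h2' + r ^ 2 * (T1 * T2 - (1 + r) * g) * hg'
    rcases mul_eq_zero.1 key with hk | hk
    · left
      refine ⟨T1 * (1 - r) / (1 + r), ?_⟩
      rw [div_pow, div_eq_iff (pow_ne_zero 2 h1r)]
      linear_combination 4 * hk
    · right
      refine ⟨T2 * (1 - r) / (1 + r), ?_⟩
      rw [div_pow, div_eq_iff (pow_ne_zero 2 h1r)]
      linear_combination 4 * hk

/-- the monic quartic -/
noncomputable def quar {K : Type*} [CommRing K] (T1 T2 d1 d2 : K) : K[X] :=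
  X ^ 4 - C (T1 * T2) * X ^ 3 + C (T1 ^ 2 * d2 + T2 ^ 2 * d1 - 2 * d1 * d2) * X ^ 2 - C (T1 * T2 * (d1 * d2)) * X +
    C ((d1 * d2) ^ 2)

theorem quar_deg {K : Type*} [Field K] (T1 T2 d1 d2 : K) : (quar T1 T2 d1 d2).natDegree = 4 := by
  unfold quar
  compute_degree!

theorem quar_monic {K : Type*} [Field K] (T1 T2 d1 d2 : K) : (quar T1 T2 d1 d2).Monic := by
  unfold quar
  monicity!

theorem quar_irr {K : Type*} [Field K] (T1 T2 d1 d2 : K) (hT1 : T1 ≠ 0) (hT2 : T2 ≠ 0) (hd1 : d1 ≠ 0)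
    (hd2 : d2 ≠ 0) (hD : T2 ^ 2 * d1 - T1 ^ 2 * d2 ≠ 0)
    (n1 : ∀ s : K, s ^ 2 ≠ T1 ^ 2 - 4 * d1) (n2 : ∀ s : K, s ^ 2 ≠ T2 ^ 2 - 4 * d2)
    (n3 : ∀ s : K, s ^ 2 ≠ (T1 ^ 2 - 4 * d1) * (T2 ^ 2 - 4 * d2)) : Irreducible (quar T1 T2 d1 d2) := by
  have hm := quar_monic T1 T2 d1 d2
  have hdg := quar_deg T1 T2 d1 d2
  rw [hm.irreducible_iff_natDegree']
  refine ⟨fun h => ?_, fun f g hf hg hfg hn => ?_⟩
  · rw [h, natDegree_one] at hdg
    exact absurd hdg (by norm_num)
  · rw [hdg, Finset.mem_Ioc] at hn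
    have hsum : f.natDegree + g.natDegree = 4 := by
      rw [← hf.natDegree_mul hg, hfg, hdg]
    obtain ⟨hn0, hn2⟩ := hn
    have hcases : g.natDegree = 1 ∨ g.natDegree = 2 := by omega
    rcases hcases with h1 | h2
    · obtain ⟨c, hc⟩ : ∃ c : K, g.IsRoot c := by
        refine Polynomial.exists_root_of_degree_eq_one ?_
        rw [degree_eq_natDegree hg.ne_zero, h1]
        rfl
      have hroot : (quar T1 T2 d1 d2).eval c = 0 := by
        rw [← hfg, eval_mul]
        rw [IsRoot.def] at hc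
        rw [hc, mul_zero]
      have hq : c ^ 4 - T1 * T2 * c ^ 3 + (T1 ^ 2 * d2 + T2 ^ 2 * d1 - 2 * d1 * d2) * c ^ 2 -
          T1 * T2 * (d1 * d2) * c + (d1 * d2) ^ 2 = 0 := by
        have := hroot
        unfold quar at this
        simp only [eval_add, eval_sub, eval_mul, eval_pow, eval_X, eval_C] at this
        exact this
      have hc0 : c ≠ 0 := by
        intro h
        rw [h] at hq
        have : (d1 * d2) ^ 2 = 0 := by linear_combination hq
        exact (pow_ne_zero 2 (mul_ne_zero hd1 hd2)) this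
      obtain ⟨s, hs⟩ := root_sq T1 T2 d1 d2 c hc0 hD hq
      exact n1 s hs
    · have hf2 : f.natDegree = 2 := by omega
      have ef : f = X ^ 2 + C (f.coeff 1) * X + C (f.coeff 0) := by
        have h3 := eq_quadratic_of_degree_le_two (p := f) (by
          rw [degree_eq_natDegree hf.ne_zero, hf2]
          rfl)
        have h4 : f.coeff 2 = 1 := by
          have := hf.coeff_natDegree
          rw [hf2] at this
          exact this
        rw [h4, C_1, one_mul] at h3
        exact h3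
      have eg : g = X ^ 2 + C (g.coeff 1) * X + C (g.coeff 0) := by
        have h3 := eq_quadratic_of_degree_le_two (p := g) (by
          rw [degree_eq_natDegree hg.ne_zero, h2]
          rfl)
        have h4 : g.coeff 2 = 1 := by
          have := hg.coeff_natDegree
          rw [h2] at this
          exact this
        rw [h4, C_1, one_mul] at h3
        exact h3
      set a := f.coeff 1
      set b := f.coeff 0
      set a' := g.coeff 1
      set b' := g.coeff 0
      have hprod : X ^ 4 + C (a + a') * X ^ 3 + C (b + b' + a * a') * X ^ 2 + C (a * b' + b * a') * X + C (b * b') =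
          quar T1 T2 d1 d2 := by
        rw [← hfg, ef, eg]
        simp only [C_add, C_mul]
        ring
      have c3 := congrArg (fun p => coeff p 3) hprod
      have c2 := congrArg (fun p => coeff p 2) hprod
      have c1 := congrArg (fun p => coeff p 1) hprod
      have c0 := congrArg (fun p => coeff p 0) hprod
      unfold quar at c3 c2 c1 c0
      simp only [coeff_add, coeff_sub, coeff_C_mul, coeff_X_pow, coeff_X, coeff_C] at c3 c2 c1 c0
      norm_num at c3 c2 c1 c0
      rcases quad_fac T1 T2 d1 d2 a b a' b' hT1 hT2 hd1 hd2 (by linear_combination c3) (by linear_combination c2)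
        (by linear_combination c1) (by linear_combination c0) with ⟨s, hs⟩ | ⟨s, hs⟩ | ⟨s, hs⟩
      · exact n3 s hs
      · exact n1 s hs
      · exact n2 s hs

end Pool.Agent.H357.GC
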