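import Pool.Agent.H357.GC.Rows
import Pool.Agent.H357.GC.Chi

set_option autoImplicit false

/-! Reduction modulo `q - 1` of the relations (helper357). -/

open Polynomial Matrix
open scoped Kronecker

namespace Pool.Agent.H357.GC

/-- `q = 1` -/
noncomputable def red : ℂ[X][X] →+* ℂ[X] := mapRingHom (evalRingHom 1)

theorem red_sg (c : ℂ[X][X]) : red (sg c) = red c := by
  unfold red sg
  rw [coe_compRingHom_apply, coe_mapRingHom, Polynomial.map_comp]
  have : ((C X * X : ℂ[X][X]).map (evalRingHom 1)) = X := by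
    rw [Polynomial.map_mul, map_C, map_X]
    simp
  rw [this, comp_X]

theorem ev_ne {R : Type*} [CommRing R] [IsDomain R] {L : Type*} [Field L] (φ : R[X] →+* L)
    (hφ : Function.Injective φ) (c : R[X][X]) (hc : c ≠ 0) : ∃ N : ℕ, ∀ n : ℕ, N ≤ n → ev φ n c ≠ 0 := by
  have hfin : Set.Finite {n : ℕ | c.IsRoot (X ^ n)} := by
    have h1 : Set.Finite {z : R[X] | c.IsRoot z} := finite_setOfPred_isRoot hc
    refine (h1.preimage (f := fun n : ℕ => (X ^ n : R[X])) ?_)
    intro m _ n _ hmn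
    have := congrArg natDegree hmn
    simpa using this
  obtain ⟨N, hN⟩ := hfin.bddAbove
  refine ⟨N + 1, fun n hn h => ?_⟩
  rw [ev_apply] at h
  have h2 : c.eval (X ^ n) = 0 := by
    apply hφ
    rw [h, map_zero]
  have := hN (show n ∈ {n : ℕ | c.IsRoot (X ^ n)} from h2)
  omega

theorem red_zero (c : ℂ[X][X]) (h : red c = 0) : C (X - 1) ∣ c := by
  rw [C_dvd_iff_dvd_coeff]
  intro i
  have h1 : (c.coeff i).eval 1 = 0 := by
    have := congrArg (fun p => coeff p i) h
    simpa [red] using this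
  have h2 := dvd_iff_isRoot.2 (show IsRoot (c.coeff i) 1 from h1)
  rwa [C_1] at h2

/-! ### linear algebra over the field of rational functions in `Q` -/

theorem kpow {K : Type*} [Field K] (M N : Matrix (Fin 2) (Fin 2) K) (k : ℕ) : (M ⊗ₖ N) ^ k = (M ^ k) ⊗ₖ (N ^ k) := by
  induction k with
  | zero => rw [pow_zero, pow_zero, pow_zero, one_kronecker_one]
  | succ k ih => rw [pow_succ, ih, ← mul_kronecker_mul, ← pow_succ, ← pow_succ]

theorem pow_two' {K : Type*} [Field K] {M : Matrix (Fin 2) (Fin 2) K} {T d : K}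
    (hM : M * M = T • M - d • (1 : Matrix (Fin 2) (Fin 2) K)) :
    M ^ 2 = T • M - d • (1 : Matrix (Fin 2) (Fin 2) K) ∧
    M ^ 3 = (T ^ 2 - d) • M - (T * d) • (1 : Matrix (Fin 2) (Fin 2) K) ∧
    M ^ 4 = (T ^ 3 - 2 * T * d) • M - (T ^ 2 * d - d ^ 2) • (1 : Matrix (Fin 2) (Fin 2) K) := by
  have h2 : M ^ 2 = T • M - d • (1 : Matrix (Fin 2) (Fin 2) K) := by rw [pow_two, hM]
  have h3 : M ^ 3 = (T ^ 2 - d) • M - (T * d) • (1 : Matrix (Fin 2) (Fin 2) K) := by
    rw [pow_succ, h2, sub_mul, smul_mul_assoc, hM, smul_mul_assoc, one_mul]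
    module
  refine ⟨h2, h3, ?_⟩
  rw [pow_succ, h3, sub_mul, smul_mul_assoc, hM, smul_mul_assoc, one_mul]
  module

theorem quar_kron {K : Type*} [Field K] (M N : Matrix (Fin 2) (Fin 2) K) (T1 T2 d1 d2 : K)
    (hM : M * M = T1 • M - d1 • (1 : Matrix (Fin 2) (Fin 2) K))
    (hN : N * N = T2 • N - d2 • (1 : Matrix (Fin 2) (Fin 2) K)) : aeval (M ⊗ₖ N) (quar T1 T2 d1 d2) = 0 := by
  obtain ⟨m2, m3, m4⟩ := pow_two' hM
  obtain ⟨n2, n3, n4⟩ := pow_two' hN
  unfold quar
  simp only [map_add, map_sub, map_mul, map_pow, aeval_X, aeval_C]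
  simp only [← map_mul, ← map_pow, ← map_add, ← map_sub]
  simp only [kpow, m2, m3, m4, n2, n3, n4, Algebra.algebraMap_eq_smul_one]
  simp only [smul_mul_assoc, one_mul]
  rw [← one_kronecker_one]
  ext ⟨i, i'⟩ ⟨j, j'⟩
  simp only [Matrix.add_apply, Matrix.sub_apply, Matrix.smul_apply, kroneckerMap_apply, smul_eq_mul, Matrix.zero_apply]
  ring

theorem dvd_of_row {ι : Type*} [Fintype ι] [DecidableEq ι] {K : Type*} [Field K] (M : Matrix ι ι K) (F : K[X])
    (hF : Irreducible F) (hM : aeval M F = 0) (v : ι → K) (hv : v ≠ 0) (P : K[X]) (h : v ᵥ* (aeval M P) = 0) :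
    F ∣ P := by
  by_contra hnd
  obtain ⟨a, b, hab⟩ := (hF.coprime_iff_not_dvd).2 hnd
  have h1 := congrArg (aeval M) hab
  rw [map_add, map_mul, map_mul, map_one, hM, mul_zero, zero_add, ← map_mul, mul_comm b P, map_mul] at h1
  apply hv
  calc v = v ᵥ* (1 : Matrix ι ι K) := (vecMul_one v).symm
    _ = v ᵥ* (aeval M P * aeval M b) := by rw [h1]
    _ = (v ᵥ* aeval M P) ᵥ* aeval M b := (vecMul_vecMul _ _ _).symm
    _ = 0 := by rw [h, zero_vecMul]

/-- the matrix of the first factor at `q = 1` -/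
noncomputable def M1 : Matrix (Fin 2) (Fin 2) (RatFunc ℂ) := !![1, qq; qq, 1 - qq + qq ^ 2]
/-- the matrix of the second factor at `q = 1` -/
noncomputable def M2 : Matrix (Fin 2) (Fin 2) (RatFunc ℂ) := !![1, qq⁻¹; qq⁻¹, 1 - qq⁻¹ + qq⁻¹ ^ 2]
/-- the product -/
noncomputable def Mb : Matrix (Fin 2 × Fin 2) (Fin 2 × Fin 2) (RatFunc ℂ) := M1 ⊗ₖ M2

theorem Mb_XE : aeval Mb XE = 0 := by
  have h0 := y0 qq_nonconst
  refine quar_kron _ _ _ _ _ _ ?_ ?_
  · unfold M1 t1 e1
    ext i j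
    fin_cases i <;> fin_cases j <;> simp [Matrix.mul_apply, Fin.sum_univ_two] <;> ring
  · unfold M2 t2 e2
    ext i j
    fin_cases i <;> fin_cases j <;> simp [Matrix.mul_apply, Fin.sum_univ_two] <;> field_simp <;> ring

/-- reduction of a row, in the field of rational functions -/
noncomputable def ro (u : Fin 2 × Fin 2 → ℂ[X][X]) : Fin 2 × Fin 2 → RatFunc ℂ :=
  fun i => algebraMap ℂ[X] (RatFunc ℂ) (red (u i))

theorem red_B (i j : Fin 2 × Fin 2) : algebraMap ℂ[X] (RatFunc ℂ) (red (Bm i j)) = qq ^ 2 * Mb i j := by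
  have h0 := y0 qq_nonconst
  have r1 : ∀ k : ℕ, red (C (X ^ k)) = 1 := by
    intro k
    simp [red]
  have r0 : red (C X) = 1 := by
    simp [red]
  have r2 : red X = X := by
    simp [red]
  obtain ⟨i1, i2⟩ := i
  obtain ⟨j1, j2⟩ := j
  have hX : algebraMap ℂ[X] (RatFunc ℂ) X = qq := rfl
  unfold Mb
  rw [kroneckerMap_apply]
  fin_cases i1 <;> fin_cases i2 <;> fin_cases j1 <;> fin_cases j2 <;>
    simp only [Bm, Am, At, M1, M2, map_mul, map_add, map_sub, map_one, map_pow, r0, r1, r2, hX, Fin.mk_zero, Fin.mk_one,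
      Fin.isValue, Fin.zero_eta, Matrix.cons_val_zero, Matrix.cons_val_one, Matrix.cons_val, Matrix.of_apply] <;>
    field_simp

theorem ro_sh (u : Fin 2 × Fin 2 → ℂ[X][X]) : ro (sh u) = qq ^ 2 • (ro u ᵥ* Mb) := by
  funext i
  show algebraMap ℂ[X] (RatFunc ℂ) (red (∑ k, sg (u k) * Bm k i)) = qq ^ 2 * ∑ k, ro u k * Mb k i
  rw [map_sum, map_sum, Finset.mul_sum]
  refine Finset.sum_congr rfl fun k _ => ?_
  rw [map_mul, map_mul, red_sg, red_B]
  show ro u k * _ = _
  ring

theorem ro_it (u : Fin 2 × Fin 2 → ℂ[X][X]) (j : ℕ) : ro (sh^[j] u) = qq ^ (2 * j) • (ro u ᵥ* Mb ^ j) := by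
  induction j with
  | zero => simp
  | succ j ih =>
    rw [Function.iterate_succ', Function.comp_apply, ro_sh, ih, smul_vecMul, vecMul_vecMul, ← pow_succ, smul_smul]
    congr 1
    ring

theorem rr_it (j : ℕ) : (rr j : Fin 2 × Fin 2 → ℂ[X][X]) = sh^[j] (rr 0) := by
  induction j with
  | zero => rfl
  | succ j ih =>
    rw [Function.iterate_succ', Function.comp_apply, ← ih]
    rfl

/-! ### the module of the relations -/

/-- the row annihilates the vector of the products at all large `n` -/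
def inK (φ : ℂ[X] →+* RatFunc ℂ) (a b a' b' : ℕ → RatFunc ℂ) (u : Fin 2 × Fin 2 → ℂ[X][X]) : Prop :=
  ∃ N : ℕ, ∀ n : ℕ, N ≤ n → ∑ i, ev φ n (u i) * ww a b a' b' n i = 0

section
variable {φ : ℂ[X] →+* RatFunc ℂ} (hφ : Function.Injective φ) {a b a' b' : ℕ → RatFunc ℂ}

include hφ in
theorem K_sat (c : ℂ[X][X]) (hc : c ≠ 0) (u u' : Fin 2 × Fin 2 → ℂ[X][X]) (h : ∀ i, u i = c * u' i)
    (hu : inK φ a b a' b' u) : inK φ a b a' b' u' := by
  obtain ⟨N, hN⟩ := hu
  obtain ⟨N', hN'⟩ := ev_ne φ hφ c hc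
  refine ⟨N + N', fun n hn => ?_⟩
  have h1 := hN n (by omega)
  have h2 : ev φ n c * ∑ i, ev φ n (u' i) * ww a b a' b' n i = 0 := by
    rw [← h1, Finset.mul_sum]
    refine Finset.sum_congr rfl fun i _ => ?_
    rw [h i, map_mul]
    ring
  exact (mul_eq_zero.1 h2).resolve_left (hN' n (by omega))

theorem K_sh (hS : Sq φ a b a' b') (u : Fin 2 × Fin 2 → ℂ[X][X]) (hu : inK φ a b a' b' u) :
    inK φ a b a' b' (sh u) := by
  obtain ⟨N, hN⟩ := hu
  refine ⟨N, fun n hn => ?_⟩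
  rw [sh_ev hS, hN (n + 1) (by omega), mul_zero]

include hφ in
/-- there is a relation with nonzero reduction -/
theorem K_red (u : Fin 2 × Fin 2 → ℂ[X][X]) (hu : inK φ a b a' b' u) (hne : u ≠ 0) :
    ∃ v, inK φ a b a' b' v ∧ ro v ≠ 0 := by
  by_contra hcon
  push Not at hcon
  have hc : (C (X - 1) : ℂ[X][X]) ≠ 0 := by
    rw [Ne, C_eq_zero]
    exact X_sub_C_ne_zero (1 : ℂ)
  have key : ∀ m : ℕ, ∀ v, inK φ a b a' b' v → ∀ i, (C (X - 1) : ℂ[X][X]) ^ m ∣ v i := by
    intro m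
    induction m with
    | zero => intro v _ i; simp
    | succ m ih =>
      intro v hv i
      have h1 := hcon v hv
      have h2 : ∀ i, ∃ w, v i = C (X - 1) * w := by
        intro i
        have h3 : algebraMap ℂ[X] (RatFunc ℂ) (red (v i)) = 0 := congrFun h1 i
        have h4 : red (v i) = 0 := (map_eq_zero_iff _ (IsFractionRing.injective ℂ[X] (RatFunc ℂ))).1 h3
        exact red_zero _ h4
      choose w hw using h2
      have h5 := K_sat hφ _ hc v w hw hv
      rw [hw i, pow_succ']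
      exact mul_dvd_mul_left _ (ih w h5 i)
  apply hne
  funext i
  by_contra hi
  have hnu : ¬ IsUnit (C (X - 1) : ℂ[X][X]) := by
    rw [isUnit_C]
    have := not_isUnit_X_sub_C (1 : ℂ)
    rwa [C_1] at this
  obtain ⟨m, hm⟩ := FiniteMultiplicity.of_not_isUnit hnu hi
  exact hm (key (m + 1) u hu i)

include hφ in
theorem K_zero (hS : Sq φ a b a' b') (hne : ∀ n, a n * a' n ≠ 0) (u : Fin 2 × Fin 2 → ℂ[X][X])
    (hu : inK φ a b a' b' u) : u = 0 := by
  by_contra hu0
  obtain ⟨v, hv, hv0⟩ := K_red hφ u hu hu0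
  let e : Fin 4 ≃ Fin 2 × Fin 2 := (finProdFinEquiv : Fin 2 × Fin 2 ≃ Fin (2 * 2)).symm
  let U : Matrix (Fin 4) (Fin 4) ℂ[X][X] := fun j k => (sh^[(j : ℕ)] v) (e k)
  have hK : ∀ j : ℕ, inK φ a b a' b' (sh^[j] v) := by
    intro j
    induction j with
    | zero => exact hv
    | succ j ih =>
      rw [Function.iterate_succ', Function.comp_apply]
      exact K_sh hS _ ih
  have hdet : U.det ≠ 0 := by
    intro h0
    have h1 : (U.map ((algebraMap ℂ[X] (RatFunc ℂ)).comp red)).det = 0 := by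
      have := RingHom.map_det ((algebraMap ℂ[X] (RatFunc ℂ)).comp red) U
      rw [h0, map_zero] at this
      exact this.symm
    obtain ⟨c, hc0, hc⟩ := exists_vecMul_eq_zero_iff.2 h1
    set P : (RatFunc ℂ)[X] := ∑ j : Fin 4, C (c j * qq ^ (2 * (j : ℕ))) * X ^ (j : ℕ) with hP
    have h2 : ro v ᵥ* (aeval Mb P) = 0 := by
      have h3 : aeval Mb P = ∑ j : Fin 4, (c j * qq ^ (2 * (j : ℕ))) • Mb ^ (j : ℕ) := by
        rw [hP, map_sum]
        refine Finset.sum_congr rfl fun j _ => ?_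
        rw [map_mul, aeval_C, map_pow, aeval_X, Algebra.smul_def]
      rw [h3, vecMul_sum]
      funext i
      have h4 := congrFun hc (e.symm i)
      simp only [vecMul, dotProduct, Matrix.map_apply, Pi.zero_apply] at h4
      rw [Finset.sum_apply, Pi.zero_apply, ← h4]
      refine Finset.sum_congr rfl fun j _ => ?_
      have h5 := congrFun (ro_it v j) i
      have h6 : (((algebraMap ℂ[X] (RatFunc ℂ)).comp red) (U j (e.symm i))) = ro (sh^[(j : ℕ)] v) i := by
        show algebraMap ℂ[X] (RatFunc ℂ) (red ((sh^[(j : ℕ)] v) (e (e.symm i)))) = _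
        rw [e.apply_symm_apply]
        rfl
      rw [h6, h5, vecMul_smul]
      simp only [Pi.smul_apply, smul_eq_mul]
      ring
    have h3 := dvd_of_row Mb XE XE_irr Mb_XE (ro v) hv0 P h2
    have hPd : P.degree < 4 := by
      rw [hP]
      exact_mod_cast degree_sum_fin_lt (fun j : Fin 4 => c j * qq ^ (2 * (j : ℕ)))
    have hP0 : P = 0 := by
      by_contra hPne
      have h4 := degree_le_of_dvd h3 hPne
      have h5 : XE.degree = 4 := by
        show (quar (t1 qq) (t2 qq) (e1 qq) (e2 qq)).degree = 4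
        rw [degree_eq_natDegree (quar_monic _ _ _ _).ne_zero, quar_deg]
        rfl
      rw [h5] at h4
      exact absurd hPd (not_lt.2 h4)
    apply hc0
    funext j
    have h6 := congrArg (fun p => coeff p (j : ℕ)) hP0
    simp only [hP, finsetSum_coeff, coeff_C_mul, coeff_X_pow, coeff_zero] at h6
    rw [Finset.sum_eq_single j] at h6
    · rw [if_pos rfl, mul_one] at h6
      exact (mul_eq_zero.1 h6).resolve_right (pow_ne_zero _ (y0 qq_nonconst))
    · intro k _ hk
      rw [if_neg (fun h => hk (Fin.ext h.symm)), mul_zero]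
    · intro hn
      exact absurd (Finset.mem_univ _) hn
  obtain ⟨N0, hN0⟩ := ev_ne φ hφ U.det hdet
  choose Nf hNf using hK
  set n : ℕ := N0 + ∑ j : Fin 4, Nf (j : ℕ) with hn
  have h1 : (U.map (ev φ n)).det ≠ 0 := by
    have := RingHom.map_det (ev φ n) U
    have h2 := hN0 n (by omega)
    rw [this] at h2
    exact h2
  have h2 : (U.map (ev φ n)) *ᵥ (fun k => ww a b a' b' n (e k)) = 0 := by
    funext j
    have h3 : Nf (j : ℕ) ≤ n := by
      have := Finset.single_le_sum (f := fun j : Fin 4 => Nf (j : ℕ)) (fun _ _ => Nat.zero_le _) (Finset.mem_univ j)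
      rw [hn]
      omega
    have h4 := hNf (j : ℕ) n h3
    rw [← Equiv.sum_comp e] at h4
    exact h4
  have h3 := eq_zero_of_mulVec_eq_zero h1 h2
  have h4 := congrFun h3 (e.symm (0, 0))
  simp only [e.apply_symm_apply, Pi.zero_apply] at h4
  exact hne n h4

end

end Pool.Agent.H357.GC
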