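import Pool.Agent.H357.GC.Defs

set_option autoImplicit false

/-! The recursions for `aa` and `bb` (helper346, for helper357, MP_4fdcc5_gt). -/

open Polynomial

namespace Pool.Agent.H357.GC

namespace QbAux

theorem qb_zero_right (n : ℕ) : qb n 0 = 1 := by
  cases n <;> rw [qb]

theorem qb_zero_left (k : ℕ) : qb 0 (k + 1) = 0 := by
  rw [qb]

theorem qb_succ (n k : ℕ) : qb (n + 1) (k + 1) = qb n k + X ^ (k + 1) * qb n (k + 1) := by
  rw [qb]

theorem qb_eq_zero : ∀ (n k : ℕ), n < k → qb n k = 0 := by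
  intro n
  induction n with
  | zero =>
    intro k hk
    obtain ⟨k, rfl⟩ : ∃ l, k = l + 1 := ⟨k - 1, by omega⟩
    exact qb_zero_left k
  | succ n ih =>
    intro k hk
    obtain ⟨k, rfl⟩ : ∃ l, k = l + 1 := ⟨k - 1, by omega⟩
    rw [qb_succ, ih k (by omega), ih (k + 1) (by omega), mul_zero, add_zero]

theorem pascal : ∀ (n k : ℕ), X ^ k * qb (n + 1) (k + 1) = X ^ k * qb n (k + 1) + X ^ n * qb n k := by
  intro n
  induction n with
  | zero =>
    intro k
    cases k with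
    | zero => rw [qb_succ, qb_zero_left, qb_zero_right]; ring
    | succ k => rw [qb_succ, qb_zero_left, qb_zero_left]; ring
  | succ n ih =>
    intro k
    cases k with
    | zero =>
      have h := ih 0
      rw [qb_zero_right] at h
      rw [qb_succ (n + 1) 0, qb_zero_right]
      rw [qb_succ n 0, qb_zero_right] at h ⊢
      linear_combination X * h
    | succ k =>
      have h1 := ih k
      have h2 := ih (k + 1)
      rw [qb_succ (n + 1) (k + 1)]
      have e1 := qb_succ n k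
      have e2 := qb_succ n (k + 1)
      rw [pow_succ] at *
      linear_combination X * h1 + X ^ (k + 2) * h2 - X ^ (k + 1) * e2 - X ^ (n + 1) * e1

/-- `∑ q ^ (k (k + r)) [n, k]` -/
noncomputable def sr (r n : ℕ) : ℤ[X] := ∑ k ∈ Finset.range (n + 1), X ^ (k * (k + r)) * qb n k

theorem sr_shift (r n : ℕ) :
    sr r n = 1 + ∑ j ∈ Finset.range (n + 1), X ^ ((j + 1) * (j + 1 + r)) * qb n (j + 1) := by
  have h1 : ∑ k ∈ Finset.range (n + 2), (X ^ (k * (k + r)) * qb n k : ℤ[X]) = sr r n := by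
    rw [Finset.sum_range_succ, qb_eq_zero n (n + 1) (by omega), mul_zero, add_zero]
    rfl
  rw [← h1, Finset.sum_range_succ', qb_zero_right, Nat.zero_mul, pow_zero, mul_one, add_comm]

theorem sr_succ_eq (r n : ℕ) :
    sr r (n + 1) = 1 + ∑ j ∈ Finset.range (n + 1), X ^ ((j + 1) * (j + 1 + r)) * qb (n + 1) (j + 1) := by
  unfold sr
  rw [Finset.sum_range_succ', qb_zero_right, Nat.zero_mul, pow_zero, mul_one, add_comm]

theorem sr_one (r n : ℕ) : sr r (n + 1) = sr r n + X ^ (n + 1 + r) * sr (r + 1) n := by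
  rw [sr_succ_eq, sr_shift r n, add_assoc]
  congr 1
  unfold sr
  rw [Finset.mul_sum, ← Finset.sum_add_distrib]
  refine Finset.sum_congr rfl fun j _ => ?_
  have h := pascal n j
  have e1 : (X : ℤ[X]) ^ ((j + 1) * (j + 1 + r)) = X ^ (j * (j + r) + j + 1 + r) * X ^ j := by
    rw [← pow_add]
    exact congrArg (fun t => (X : ℤ[X]) ^ t) (by ring)
  have e2 : (X : ℤ[X]) ^ (n + 1 + r) * X ^ (j * (j + (r + 1))) =
      X ^ (j * (j + r) + j + 1 + r) * X ^ n := by
    rw [← pow_add, ← pow_add]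
    exact congrArg (fun t => (X : ℤ[X]) ^ t) (by ring)
  rw [← mul_assoc (X ^ (n + 1 + r)), e1, e2]
  linear_combination X ^ (j * (j + r) + j + 1 + r) * h

theorem sr_two (r n : ℕ) : sr r (n + 1) = sr (r + 1) n + X ^ (r + 1) * sr (r + 2) n := by
  rw [sr_succ_eq, sr_shift (r + 1) n, add_assoc]
  congr 1
  unfold sr
  rw [Finset.mul_sum, ← Finset.sum_add_distrib]
  refine Finset.sum_congr rfl fun j _ => ?_
  have e1 : (X : ℤ[X]) ^ ((j + 1) * (j + 1 + (r + 1))) =
      X ^ ((j + 1) * (j + 1 + r)) * X ^ (j + 1) := by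
    rw [← pow_add]
    exact congrArg (fun t => (X : ℤ[X]) ^ t) (by ring)
  have e2 : (X : ℤ[X]) ^ (r + 1) * X ^ (j * (j + (r + 2))) =
      X ^ ((j + 1) * (j + 1 + r)) := by
    rw [← pow_add]
    exact congrArg (fun t => (X : ℤ[X]) ^ t) (by ring)
  rw [← mul_assoc (X ^ (r + 1)), e1, e2, qb_succ]
  ring

theorem aa_eq (n : ℕ) : aa n = sr 1 n := rfl

theorem bb_eq (n : ℕ) : bb n = sr 2 n := rfl

theorem aa_eval (n : ℕ) : (aa n).eval 0 = 1 := by
  rw [aa_eq, sr_shift, eval_add, eval_one, eval_finsetSum, Finset.sum_eq_zero, add_zero]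
  intro j _
  rw [eval_mul, eval_pow, eval_X, zero_pow, zero_mul]
  positivity

theorem aa_ne_zero (n : ℕ) : aa n ≠ 0 := by
  intro h
  have h1 := aa_eval n
  rw [h, eval_zero] at h1
  exact zero_ne_one h1

theorem eval₂_ne (F : Type) [Field F] [CharZero F] (p : ℤ[X]) (hp : p ≠ 0) :
    eval₂ (Int.castRingHom (RatFunc F)) RatFunc.X p ≠ 0 := by
  have h1 : eval₂ (Int.castRingHom (RatFunc F)) RatFunc.X p =
      algebraMap F[X] (RatFunc F) (p.map (Int.castRingHom F)) := by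
    rw [← RatFunc.algebraMap_X, ← Polynomial.coe_mapRingHom, ← RingHom.comp_apply]
    have h2 : (algebraMap F[X] (RatFunc F)).comp (mapRingHom (Int.castRingHom F)) =
        eval₂RingHom (Int.castRingHom (RatFunc F)) (algebraMap F[X] (RatFunc F) X) := by
      refine Polynomial.ringHom_ext (fun a => ?_) ?_
      · simp
      · simp
    rw [h2]
    rfl
  rw [h1]
  intro h
  have h3 := (map_eq_zero_iff _ (RatFunc.algebraMap_injective F)).1 h
  exact hp ((Polynomial.map_eq_zero_iff (RingHom.injective_int _)).1 h3)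

end QbAux

open QbAux

theorem aa_succ (n : ℕ) : aa (n + 1) = aa n + X ^ (n + 2) * bb n := sr_one 1 n

theorem bb_succ (n : ℕ) :
    bb (n + 1) = X ^ (n + 1) * aa n + (1 - X ^ (n + 1) + X ^ (2 * n + 3)) * bb n := by
  have h1 := sr_one 1 n
  have h2 := sr_two 1 n
  have h3 := sr_one 2 n
  rw [aa_eq, bb_eq, bb_eq, h3]
  have h4 : sr 1 n + X ^ (n + 1 + 1) * sr (1 + 1) n = sr (1 + 1) n + X ^ (1 + 1) * sr (1 + 2) n := by
    rw [← h1, h2]
  have e1 : (X : ℤ[X]) ^ (2 * n + 3) = X ^ (n + 1) * X ^ (n + 2) := by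
    rw [← pow_add]
    exact congrArg (fun t => (X : ℤ[X]) ^ t) (by ring)
  have e2 : (X : ℤ[X]) ^ (n + 1 + 2) = X ^ (n + 1) * X ^ 2 := by
    rw [← pow_add]
  have e3 : (2 + 1 : ℕ) = 1 + 2 := rfl
  have e4 : (1 + 1 : ℕ) = 2 := rfl
  have e5 : n + 1 + 1 = n + 2 := rfl
  rw [e1, e2, e3]
  rw [e4, e5] at h4
  linear_combination -X ^ (n + 1) * h4

theorem aa_ne (F : Type) [Field F] [CharZero F] (n : ℕ) :
    eval₂ (Int.castRingHom (RatFunc F)) RatFunc.X (aa n) ≠ 0 ∧
      eval₂ (Int.castRingHom (RatFunc F)) (RatFunc.X)⁻¹ (aa n) ≠ 0 := by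
  refine ⟨eval₂_ne F _ (aa_ne_zero n), ?_⟩
  intro h
  have hX : (RatFunc.X : RatFunc F) ≠ 0 := RatFunc.X_ne_zero
  have hi : Invertible (RatFunc.X⁻¹ : RatFunc F) := invertibleOfNonzero (inv_ne_zero hX)
  have h1 := (eval₂_reverse_eq_zero_iff (Int.castRingHom (RatFunc F)) (RatFunc.X⁻¹ : RatFunc F)
    (aa n)).2 h
  rw [invOf_eq_inv, inv_inv] at h1
  refine eval₂_ne F _ ?_ h1
  intro h2
  exact aa_ne_zero n (reverse_eq_zero.1 h2)

end Pool.Agent.H357.GC
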