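import Mathlib

set_option autoImplicit false

/-! The linear system of the double twist knot (helper357). -/

open Polynomial Matrix

namespace Pool.Agent.H357.GC

section gen
variable {R : Type*} [CommRing R] {L : Type*} [Field L]

/-- `Q ↦ q Q` -/
noncomputable def sg : R[X][X] →+* R[X][X] := compRingHom (C X * X)

/-- `Q ↦ q ^ n`, and `q` by `φ` -/
noncomputable def ev (φ : R[X] →+* L) (n : ℕ) : R[X][X] →+* L := φ.comp (evalRingHom (X ^ n))

theorem ev_apply (φ : R[X] →+* L) (n : ℕ) (c : R[X][X]) : ev φ n c = φ (c.eval (X ^ n)) := rfl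

theorem ev_sg (φ : R[X] →+* L) (n : ℕ) (c : R[X][X]) : ev φ n (sg c) = ev φ (n + 1) c := by
  rw [ev_apply, ev_apply]
  refine congrArg φ ?_
  show (c.comp (C X * X)).eval (X ^ n) = _
  rw [eval_comp, eval_mul, eval_C, eval_X, pow_succ']

/-- the scaling factor `q ^ 3 Q ^ 2` -/
noncomputable def ss : R[X][X] := C (X ^ 3) * X ^ 2

/-- the matrix of the first factor -/
noncomputable def Am : Fin 2 → Fin 2 → R[X][X] :=
  ![![1, C (X ^ 2) * X], ![C X * X, 1 - C X * X + C (X ^ 3) * X ^ 2]]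

/-- the matrix of the second factor, times `q ^ 3 Q ^ 2` -/
noncomputable def At : Fin 2 → Fin 2 → R[X][X] :=
  ![![C (X ^ 3) * X ^ 2, C X * X], ![C (X ^ 2) * X, C (X ^ 3) * X ^ 2 - C (X ^ 2) * X + 1]]

/-- the matrix of the product -/
noncomputable def Bm : Matrix (Fin 2 × Fin 2) (Fin 2 × Fin 2) R[X][X] :=
  fun i j => Am i.1 j.1 * At i.2 j.2

/-- the recursions -/
structure Sq (φ : R[X] →+* L) (a b a' b' : ℕ → L) : Prop where
  q0 : φ X ≠ 0
  ra : ∀ n, a (n + 1) = a n + φ X ^ (n + 2) * b n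
  rb : ∀ n, b (n + 1) = φ X ^ (n + 1) * a n + (1 - φ X ^ (n + 1) + φ X ^ (2 * n + 3)) * b n
  ra' : ∀ n, a' (n + 1) = a' n + (φ X)⁻¹ ^ (n + 2) * b' n
  rb' : ∀ n, b' (n + 1) = (φ X)⁻¹ ^ (n + 1) * a' n + (1 - (φ X)⁻¹ ^ (n + 1) + (φ X)⁻¹ ^ (2 * n + 3)) * b' n

/-- the vector of the products -/
def ww (a b a' b' : ℕ → L) (n : ℕ) : Fin 2 × Fin 2 → L := fun i => (![a n, b n] i.1) * (![a' n, b' n] i.2)

theorem sys {φ : R[X] →+* L} {a b a' b' : ℕ → L} (h : Sq φ a b a' b') (n : ℕ) (i : Fin 2 × Fin 2) :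
    ∑ k, ev φ n (Bm i k) * ww a b a' b' n k = ev φ n ss * ww a b a' b' (n + 1) i := by
  have q0 := h.q0
  set q := φ X with hq
  have e1 : ∀ k : ℕ, ev φ n (C (X ^ k)) = q ^ k := by
    intro k
    rw [ev_apply, eval_C, map_pow]
  have e0 : ev φ n (C X) = q := by
    rw [ev_apply, eval_C]
  have e2 : ev φ n X = q ^ n := by
    rw [ev_apply, eval_X, map_pow]
  rw [Fintype.sum_prod_type]
  simp only [Fin.sum_univ_two]
  obtain ⟨i1, i2⟩ := i
  have r1 := h.ra n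
  have r2 := h.rb n
  have r3 : q ^ 3 * (q ^ n) ^ 2 * a' (n + 1) = q ^ 3 * (q ^ n) ^ 2 * a' n + q * q ^ n * b' n := by
    have e : q⁻¹ ^ (n + 2) = (q ^ n * q ^ 2)⁻¹ := by rw [inv_pow, pow_add]
    rw [h.ra' n, ← hq, e]
    have hu : q ^ n ≠ 0 := pow_ne_zero n q0
    generalize q ^ n = u at hu
    field_simp
  have r4 : q ^ 3 * (q ^ n) ^ 2 * b' (n + 1) = q ^ 2 * q ^ n * a' n + (q ^ 3 * (q ^ n) ^ 2 - q ^ 2 * q ^ n + 1) * b' n := by
    have e : q⁻¹ ^ (n + 1) = (q ^ n * q)⁻¹ := by rw [inv_pow, pow_succ]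
    have e' : q⁻¹ ^ (2 * n + 3) = (q ^ n * q ^ n * q ^ 3)⁻¹ := by rw [inv_pow, pow_add, two_mul, pow_add]
    rw [h.rb' n, ← hq, e, e']
    have hu : q ^ n ≠ 0 := pow_ne_zero n q0
    generalize q ^ n = u at hu
    field_simp
  fin_cases i1 <;> fin_cases i2 <;>
    simp only [Bm, Am, At, ww, ss, map_mul, map_add, map_sub, map_one, map_pow, e0, e1, e2, Fin.mk_zero, Fin.mk_one,
      Fin.isValue, Fin.zero_eta, Matrix.cons_val_zero, Matrix.cons_val_one, Matrix.cons_val]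
  · rw [r1]
    linear_combination (-(a n + q ^ (n + 2) * b n)) * r3
  · rw [r1]
    linear_combination (-(a n + q ^ (n + 2) * b n)) * r4
  · rw [r2]
    linear_combination (-(q ^ (n + 1) * a n + (1 - q ^ (n + 1) + q ^ (2 * n + 3)) * b n)) * r3
  · rw [r2]
    linear_combination (-(q ^ (n + 1) * a n + (1 - q ^ (n + 1) + q ^ (2 * n + 3)) * b n)) * r4

/-- the rows -/
noncomputable def rr : ℕ → Fin 2 × Fin 2 → R[X][X]
  | 0 => fun i => if i = (0, 0) then 1 else 0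
  | j + 1 => fun i => ∑ k, sg (rr j k) * Bm k i

/-- the scaling factors of the rows -/
noncomputable def SS (i : ℕ) : R[X][X] := C (X ^ (i ^ 2 + 2 * i)) * X ^ (2 * i)

theorem SS_succ (i : ℕ) : (SS (i + 1) : R[X][X]) = ss * sg (SS i) := by
  unfold SS ss sg
  rw [coe_compRingHom_apply, mul_comp, C_comp, X_pow_comp, mul_pow, ← C_pow]
  have e : (i + 1) ^ 2 + 2 * (i + 1) = 3 + (i ^ 2 + 2 * i) + 2 * i := by ring
  rw [e, pow_add X (3 + (i ^ 2 + 2 * i)) (2 * i), pow_add X 3, C_mul, C_mul, mul_add 2 i 1, pow_add X (2 * i) (2 * 1)]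
  ring

/-- shift of a row -/
noncomputable def sh (u : Fin 2 × Fin 2 → R[X][X]) : Fin 2 × Fin 2 → R[X][X] := fun i => ∑ k, sg (u k) * Bm k i

theorem sh_ev {φ : R[X] →+* L} {a b a' b' : ℕ → L} (h : Sq φ a b a' b') (n : ℕ) (u : Fin 2 × Fin 2 → R[X][X]) :
    ∑ i, ev φ n (sh u i) * ww a b a' b' n i = ev φ n ss * ∑ i, ev φ (n + 1) (u i) * ww a b a' b' (n + 1) i := by
  have e1 : ∀ i, ev φ n (sh u i) * ww a b a' b' n i = ∑ k, ev φ (n + 1) (u k) * (ev φ n (Bm k i) * ww a b a' b' n i) := by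
    intro i
    unfold sh
    rw [map_sum, Finset.sum_mul]
    refine Finset.sum_congr rfl fun k _ => ?_
    rw [map_mul, ev_sg]
    ring
  rw [Finset.sum_congr rfl fun i _ => e1 i, Finset.sum_comm, Finset.mul_sum]
  refine Finset.sum_congr rfl fun k _ => ?_
  rw [← Finset.mul_sum, sys h n k]
  ring

theorem rr_ev {φ : R[X] →+* L} {a b a' b' : ℕ → L} (h : Sq φ a b a' b') (j : ℕ) : ∀ n : ℕ,
    ∑ i, ev φ n (rr j i) * ww a b a' b' n i = ev φ n (SS j) * (a (n + j) * a' (n + j)) := by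
  induction j with
  | zero =>
    intro n
    rw [Finset.sum_eq_single ((0, 0) : Fin 2 × Fin 2)]
    · simp [rr, SS, ww]
    · intro i _ hi
      simp [rr, hi]
    · intro hn
      exact absurd (Finset.mem_univ _) hn
  | succ j ih =>
    intro n
    have h1 := sh_ev h n (rr j)
    have h2 : (sh (rr j) : Fin 2 × Fin 2 → R[X][X]) = rr (j + 1) := rfl
    rw [h2, ih (n + 1)] at h1
    rw [h1, SS_succ, map_mul, ev_sg, mul_assoc]
    have e : n + 1 + j = n + (j + 1) := by ring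
    rw [e]

end gen

end Pool.Agent.H357.GC
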